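import Pool.Agent.Q54.CU.Univ

/-!
# Regularity of the hypersurfaces `∑ λ_j q_j(x) = 1`
-/

set_option autoImplicit false

universe u

namespace Q54.CU

open MvPolynomial CategoryTheory AlgebraicGeometry TopologicalSpace

/-- All local rings of the scheme are regular local rings. -/
def IsRegularSch (X : Scheme.{u}) : Prop := ∀ x : X, IsRegularLocalRing (X.presheaf.stalk x)

/-- Localizations of regular rings are regular. -/
lemma regular_away {A : Type u} [CommRing A] [IsRegularRing A] (f : A) :
    IsRegularRing (Localization.Away f) := by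
  have h1 : IsNoetherianRing (Localization.Away f) :=
    IsLocalization.isNoetherianRing (Submonoid.powers f) _ inferInstance
  rw [isRegularRing_iff]
  intro p hp
  have h2 := IsLocalization.isLocalization_isLocalization_atPrime_isLocalization
    (Submonoid.powers f) (Localization.AtPrime p) p
  exact IsRegularLocalRing.of_ringEquiv (IsLocalization.algEquiv
    (p.under A).primeCompl (Localization.AtPrime (p.under A)) (Localization.AtPrime p)).toRingEquiv

lemma regular_spec {A : CommRingCat.{u}} [IsRegularRing A] : IsRegularSch (Spec A) := by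
  intro x
  exact IsRegularLocalRing.of_ringEquiv (Spec.stalkIso A x).symm.commRingCatIsoToRingEquiv

lemma regular_of_open {U X : Scheme.{u}} (j : U ⟶ X) [IsOpenImmersion j] (hU : IsRegularSch U)
    (y : U) : IsRegularLocalRing (X.presheaf.stalk (j y)) := by
  have h1 := hU y
  exact IsRegularLocalRing.of_ringEquiv (asIso (j.stalkMap y)).symm.commRingCatIsoToRingEquiv

variable {R : Type u} [CommRing R] {M r : ℕ}

/-- **The hypersurface is regular if the base ring is**. -/
theorem regular_hyp [IsRegularRing R] (q : Fin (r + 1) → MvPolynomial (Fin M) R) :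
    IsRegularSch (HypSch q 1) := by
  intro x
  have h1 : hypProj q 1 x ∈ Set.range (compl q).ι := range_hypProj_one q ⟨x, rfl⟩
  rw [Scheme.Opens.range_ι] at h1
  obtain ⟨j, hj⟩ := (mem_compl q).1 h1
  obtain ⟨h, hh⟩ := exists_chart q 1 j
  have h2 : hypProj q 1 x ∈ Set.range (chartInc q j) := (mem_range_chartInc q j _).2 hj
  obtain ⟨z, hz⟩ := h2
  have h3 : IsOpenImmersion h := MorphismProperty.of_isPullback (P := @IsOpenImmersion) hh.flip
    inferInstance
  obtain ⟨y, hy, -⟩ := Scheme.Pullback.exists_preimage_pullback x z hz.symm
  have h4 : x ∈ Set.range h := by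
    refine ⟨hh.isoPullback.inv y, ?_⟩
    rw [← Scheme.Hom.comp_apply, hh.isoPullback_inv_fst]
    exact hy
  obtain ⟨w, rfl⟩ := h4
  have h5 : IsRegularRing (chartRing q j) := regular_away (q j)
  have h6 : IsRegularRing (MvPolynomial (Fin r) (chartRing q j)) := inferInstance
  exact regular_of_open h (regular_spec (A := CommRingCat.of _)) w

end Q54.CU
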