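import Mathlib

/-!
# Finitely generated groups in exact sequences
-/

set_option autoImplicit false

namespace Q54.CU

variable {A B C : Type*} [AddCommGroup A] [AddCommGroup B] [AddCommGroup C]

lemma fg_iff (A : Type*) [AddCommGroup A] : AddGroup.FG A ↔ Module.Finite ℤ A :=
  (Module.Finite.iff_addGroup_fg (G := A)).symm

/-- The middle term of an exact sequence is finitely generated if the outer ones are. -/
theorem fg_of_exact {a : A →+ B} {b : B →+ C} (h : Function.Exact a b) (hA : AddGroup.FG A)
    (hC : AddGroup.FG C) : AddGroup.FG B := by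
  rw [fg_iff] at hA hC ⊢
  have h1 : Module.Finite ℤ (LinearMap.ker b.toIntLinearMap) := by
    have h2 : LinearMap.ker b.toIntLinearMap = LinearMap.range a.toIntLinearMap := by
      ext x
      exact h x
    rw [h2]
    infer_instance
  have h3 : Module.Finite ℤ (B ⧸ LinearMap.ker b.toIntLinearMap) :=
    Module.Finite.equiv b.toIntLinearMap.quotKerEquivRange.symm
  exact Module.Finite.of_submodule_quotient (LinearMap.ker b.toIntLinearMap)

theorem fg_of_equiv (e : A ≃+ B) (hA : AddGroup.FG A) : AddGroup.FG B := by
  rw [fg_iff] at hA ⊢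
  exact Module.Finite.equiv e.toIntLinearEquiv

end Q54.CU
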