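import Pool.Agent.Y116.UV.Graph
import Pool.Agent.Y116.UV.Space

/-!
# Two properties of schemes

A variant of `Pool.Agent.Y116.UV.universal` for a property `P` of the schemes and a stronger property
`Q` of the hypersurfaces, which is only used for the complement of a closed subscheme of an affine
scheme.
-/

set_option autoImplicit false

namespace Q54.CU

open MvPolynomial CategoryTheory AlgebraicGeometry Pool.Agent.Y116.UV

/-- Closure properties of a pair of properties of schemes. -/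
structure Uni2 {R : Type} [CommRing R] (sep : Prop) (P Q : Sch R → Prop) : Prop where
  iso : ∀ {X Y : Sch R}, FT sep X → Nonempty (X ≅ Y) → P X → P Y
  isoQ : ∀ {X Y : Sch R}, FT sep X → Nonempty (X ≅ Y) → Q X → Q Y
  total : ∀ {Z X U : Sch R} (i : Z ⟶ X) (j : U ⟶ X), FT sep X → IsTriple i j → P Z → P U → P X
  opened : ∀ {Z X U : Sch R} (i : Z ⟶ X) (j : U ⟶ X), FT sep X → IsTriple i j → P Z → P X → P U
  closed : ∀ {Z X U : Sch R} (i : Z ⟶ X) (j : U ⟶ X), FT sep X → IsTriple i j → P X → Q U → P Z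
  space : ∀ n : ℕ, P (aff R (MvPolynomial (Fin n) R))
  jouanolou : ∀ (A : Type) [CommRing A] [Algebra R A] [Algebra.FiniteType R A] (m : ℕ)
    (f : Fin m → A) (U : Sch R) (j : U ⟶ aff R A), IsOpenImmersion j.left →
    Set.range j.left = {x : PrimeSpectrum A | ∃ l, f l ∉ x.asIdeal} → Q (aff R (Jou f)) → Q U
  torus : ∀ (A : Type) [CommRing A] [Algebra R A] [Algebra.FiniteType R A],
    P (aff R (LaurentPolynomial A)) → P (aff R A)

variable {R : Type} [CommRing R] {sep : Prop} {P Q : Sch R → Prop}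

lemma iso_alg2 (hP : Uni2 sep P Q) {A B : Type} [CommRing A] [CommRing B] [Algebra R A]
    [Algebra R B] [Algebra.FiniteType R A] (e : A ≃ₐ[R] B) (h : P (aff R A)) : P (aff R B) :=
  hP.iso (ft_aff sep) ⟨(affIso e).symm⟩ h

lemma iso_algQ (hP : Uni2 sep P Q) {A B : Type} [CommRing A] [CommRing B] [Algebra R A]
    [Algebra R B] [Algebra.FiniteType R A] (e : A ≃ₐ[R] B) (h : Q (aff R A)) : Q (aff R B) :=
  hP.isoQ (ft_aff sep) ⟨(affIso e).symm⟩ h

lemma of_jou2 (hP : Uni2 sep P Q) {A : Type} [CommRing A] [Algebra R A] [Algebra.FiniteType R A]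
    {m : ℕ} (f : Fin m → A) (hA : P (aff R A)) (hJ : Q (aff R (Jou f))) :
    P (aff R (A ⧸ Ideal.span (Set.range f))) := by
  refine hP.closed (affMap (Ideal.Quotient.mkₐ R (Ideal.span (Set.range f))))
    (opnMap (aff R A) (neOpen R f)) (ft_aff sep) ⟨closed_affMap _ (Ideal.Quotient.mkₐ_surjective R _),
      inferInstance, ?_⟩ hA
    (hP.jouanolou A m f (opn (aff R A) (neOpen R f)) (opnMap (aff R A) (neOpen R f)) inferInstance
      (range_opnMap _ _) hJ)
  rw [range_affMap _ (Ideal.Quotient.mkₐ_surjective R _), range_opnMap]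
  ext x
  change (∀ a, Ideal.Quotient.mk (Ideal.span (Set.range f)) a = 0 → a ∈ x.asIdeal) ↔
    ¬ ∃ l, f l ∉ x.asIdeal
  push Not
  constructor
  · intro h l
    exact h (f l) (Ideal.Quotient.eq_zero_iff_mem.mpr (Ideal.subset_span ⟨l, rfl⟩))
  · intro h a ha
    rw [Ideal.Quotient.eq_zero_iff_mem] at ha
    refine (Ideal.span_le.mpr ?_ : Ideal.span (Set.range f) ≤ x.asIdeal) ha
    rintro _ ⟨l, rfl⟩
    exact h l

section

variable {S : Set R} (hP : Uni2 sep P Q) (h0 : 0 ∈ S) (h1 : 1 ∈ S)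
  (hH : ∀ (a b c : ℕ) (T : Fin a → Fin b → Fin c → R), (∀ i j k, T i j k ∈ S) →
    Q (aff R (Hyp T)))

include hP hH

lemma hyp_fintype2 {α β γ : Type} [Fintype α] [Fintype β] [Fintype γ] (T : α → β → γ → R)
    (hT : ∀ i j k, T i j k ∈ S) : Q (aff R (Hyp T)) :=
  iso_algQ hP (hypRename (Fintype.equivFin α).symm (Fintype.equivFin β).symm
    (Fintype.equivFin γ).symm T) (hH _ _ _ _ fun _ _ _ => hT _ _ _)

lemma of_bil2 {β γ κ : Type} [Fintype β] [Fintype γ] [Fintype κ] (f : κ → MvPolynomial (β ⊕ γ) R)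
    (hf : ∀ k, f k ∈ bilIn S β γ) :
    P (aff R (MvPolynomial (β ⊕ γ) R ⧸ Ideal.span (Set.range f))) := by
  let e := (Fintype.equivFin κ).symm
  have h1 : Set.range f = Set.range (f ∘ e) := by
    rw [Set.range_comp, e.range_eq_univ, Set.image_univ]
  rw [h1]
  choose T hTS hT using hf
  refine of_jou2 hP (f ∘ e) ?_ ?_
  · exact iso_alg2 hP (renameEquiv R (Fintype.equivFin (β ⊕ γ)).symm) (hP.space _)
  · have h2 : f ∘ e = fun i => bil β γ (T (e i)) := by
      funext i
      exact (hT (e i)).symm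
    rw [h2]
    exact iso_algQ hP (hypEquiv fun i => T (e i)) (hyp_fintype2 hP hH _ fun _ _ _ => hTS _ _ _)

include h0 h1

lemma of_cone2 {A : Type} [CommRing A] [Algebra R A] [Algebra.FiniteType R A] {n D : ℕ}
    (hD : 1 ≤ D) (G : Finset (MvPolynomial (Fin n) R)) (φ : MvPolynomial (Fin n) R →ₐ[R] A)
    (hd : ∀ g ∈ G, ∀ m ∈ g.support, m.degree ≤ D) (hs : Function.Surjective φ)
    (hK : RingHom.ker φ = Ideal.span (G : Set (MvPolynomial (Fin n) R)))
    (hc : ∀ g ∈ G, ∀ m, coeff m g ∈ S) : P (aff R A) := by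
  classical
  have hG : ∀ g ∈ G, φ g = 0 := by
    intro g hg
    have : g ∈ RingHom.ker φ := by
      rw [hK]
      exact Ideal.subset_span hg
    exact this
  have hA : P (aff R (Cone hD G)) := of_bil2 hP hH (eqs hD G) (eqs_mem hD G h0 h1 hc)
  let f' : Option (Mon n D ⊕ (Mon n D × Fin n) ⊕ G) → UVRing R n D := fun k =>
    k.elim (uu R (mo n D) * vv R (mo n D)) (eqs hD G)
  have h2 : P (aff R (UVRing R n D ⧸ Ideal.span (Set.range f'))) := by
    apply of_bil2 hP hH f'
    rintro (_ | k)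
    · exact single_mem h0 h1 _ _
    · exact eqs_mem hD G h0 h1 hc k
  have h3 : Ideal.span (Set.range f') =
      eqI hD G ⊔ Ideal.span {uu R (mo n D) * vv R (mo n D)} := by
    rw [eqI, ← Ideal.span_union]
    congr 1
    ext x
    constructor
    · rintro ⟨_ | k, rfl⟩
      · exact Or.inr rfl
      · exact Or.inl ⟨k, rfl⟩
    · rintro (⟨k, rfl⟩ | rfl)
      · exact ⟨some k, rfl⟩
      · exact ⟨none, rfl⟩
  rw [h3] at h2
  have h4 : P (aff R (Cone hD G ⧸ Ideal.span {cw hD G})) := by
    have e := (DoubleQuot.quotQuotEquivQuotSupₐ R (eqI hD G)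
      (Ideal.span {uu R (mo n D) * vv R (mo n D)})).symm
    have h5 := iso_alg2 (B := Cone hD G ⧸ Ideal.map (Ideal.Quotient.mkₐ R (eqI hD G))
      (Ideal.span {uu R (mo n D) * vv R (mo n D)})) hP e h2
    have h6 : Ideal.map (Ideal.Quotient.mkₐ R (eqI hD G))
        (Ideal.span {uu R (mo n D) * vv R (mo n D)}) = Ideal.span {cw hD G} := by
      rw [Ideal.map_span, Set.image_singleton]
      rfl
    rw [← h6]
    exact h5
  have h5 : P (aff R (LCone hD G)) := hP.opened _ _ (ft_aff sep) (triple_away (cw hD G)) h4 hA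
  have h6 : Algebra.FiniteType R (LCone hD G) :=
    Algebra.FiniteType.trans (S := Cone hD G) inferInstance inferInstance
  have h7 := ft_laurent (R := R) A
  exact hP.torus A (hP.torus _ (iso_alg2 hP (coneEquiv hD G φ hG hd hs hK) h5))

/-- The affine case. -/
theorem affine_case2 (hS : Presents S) (A : Type) [CommRing A] [Algebra R A]
    [Algebra.FiniteType R A] : P (aff R A) := by
  classical
  obtain ⟨n, φ, G, hs, hK, hc⟩ := hS A
  let D : ℕ := 1 + ∑ g ∈ G, ∑ m ∈ g.support, m.degree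
  refine of_cone2 hP h0 h1 hH (D := D) (by omega) G φ ?_ hs hK hc
  intro g hg m hm
  have h1 : m.degree ≤ ∑ m ∈ g.support, m.degree :=
    Finset.single_le_sum (f := fun m : Fin n →₀ ℕ => m.degree) (fun _ _ => Nat.zero_le _) hm
  have h2 : ∑ m ∈ g.support, m.degree ≤ ∑ g ∈ G, ∑ m ∈ g.support, m.degree :=
    Finset.single_le_sum (f := fun g : MvPolynomial (Fin n) R => ∑ m ∈ g.support, m.degree)
      (fun _ _ => Nat.zero_le _) hg
  omega

theorem universal2 (hS : Presents S) (X : Sch R) (hX : FT sep X) : P X :=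
  of_affine' hP.iso hP.total (fun A _ _ _ => affine_case2 hP h0 h1 hH hS A) X hX

end

/-- The hypersurfaces of the tripartite hypergraphs have the property `Q`: then all schemes of finite
type have the property `P`. -/
theorem universal2_int [IsNoetherianRing R] (hR : Function.Surjective (Int.cast : ℤ → R))
    (hP : Uni2 sep P Q)
    (hH : ∀ (a b c : ℕ) (H : Finset (Fin a × Fin b × Fin c)), Q (aff R (Trip R H)))
    (X : Sch R) (hX : FT sep X) : P X := by
  classical
  refine universal2 hP (S := {0, 1}) (Or.inl rfl) (Or.inr rfl) ?_ (presents_zero_one hR) X hX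
  intro a b c T hT
  let H : Finset (Fin a × Fin b × Fin c) := Finset.univ.filter fun h => T h.1 h.2.1 h.2.2 = 1
  have h1 : T = fun i j k => if (i, j, k) ∈ H then (1 : R) else 0 := by
    funext i j k
    have hm : (i, j, k) ∈ H ↔ T i j k = 1 := by
      rw [Finset.mem_filter]
      exact ⟨fun h => h.2, fun h => ⟨Finset.mem_univ _, h⟩⟩
    by_cases h : T i j k = 1
    · rw [if_pos (hm.mpr h), h]
    · rw [if_neg fun h2 => h (hm.mp h2)]
      rcases hT i j k with h2 | h2
      · exact h2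
      · exact absurd h2 h
  have h2 := hH a b c H
  unfold Trip at h2
  rw [← tri_ind, ← h1] at h2
  exact h2

end Q54.CU
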