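import Pool.Agent.Q54.CU.Trip
import Pool.Agent.Q54.CU.FG
import Pool.Agent.Q54.CU.Uni2

/-!
# `K'`-theory and the closure properties `Uni`
-/

set_option autoImplicit false

namespace Q54.CU

open MvPolynomial CategoryTheory AlgebraicGeometry Pool.Agent.Y116.UV

/-- The maps of a long exact sequence. -/
structure LongSeq (A B C : ℕ → Type) [∀ n, AddCommGroup (A n)] [∀ n, AddCommGroup (B n)]
    [∀ n, AddCommGroup (C n)] where
  a : ∀ n, A n →+ B n
  b : ∀ n, B n →+ C n
  c : ∀ n, C (n + 1) →+ A n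

section

variable {A B C : ℕ → Type} [∀ n, AddCommGroup (A n)] [∀ n, AddCommGroup (B n)]
  [∀ n, AddCommGroup (C n)]

/-- Exactness at the groups `B`. -/
def LongSeq.ExactB (S : LongSeq A B C) : Prop := ∀ n, Function.Exact (S.a n) (S.b n)

/-- Exactness at the groups `C`. -/
def LongSeq.ExactC (S : LongSeq A B C) : Prop :=
  (∀ n, Function.Exact (S.b (n + 1)) (S.c n)) ∧ Function.Surjective (S.b 0)

/-- Exactness at the groups `A`. -/
def LongSeq.ExactA (S : LongSeq A B C) : Prop := ∀ n, Function.Exact (S.c n) (S.a n)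

end

/-- There is a long exact sequence `… → A_{n+1} → B_{n+1} → C_{n+1} → A_n → B_n → C_n → … → C_0 → 0`. -/
def LongExact (A B C : ℕ → Type) [∀ n, AddCommGroup (A n)] [∀ n, AddCommGroup (B n)]
    [∀ n, AddCommGroup (C n)] : Prop :=
  ∃ S : LongSeq A B C, S.ExactB ∧ S.ExactC ∧ S.ExactA

/-- `A` is a direct summand of `B`. -/
def IsSummand (A B : Type) [AddCommGroup A] [AddCommGroup B] : Prop :=
  ∃ (s : A →+ B) (r : B →+ A), r.comp s = AddMonoidHom.id A

/-- `U` is the open subscheme of `Spec A` where the `f_l` do not all vanish. -/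
def IsNonzeroLocus {R A : Type} [CommRing R] [CommRing A] [Algebra R A] {m : ℕ} (f : Fin m → A)
    (U : Sch R) : Prop :=
  ∃ j : U ⟶ aff R A, IsOpenImmersion j.left ∧
    Set.range j.left = {x : PrimeSpectrum A | ∃ l, f l ∉ x.asIdeal}

/-- The affine bundle `Spec A[w_1, …, w_m] / (∑ f_l w_l - 1)` of Jouanolou. -/
noncomputable def jouS (R : Type) {A : Type} [CommRing R] [CommRing A] [Algebra R A] {m : ℕ}
    (f : Fin m → A) : Sch R :=
  aff R (Jou f)

/-- The scheme `Spec A[t, t⁻¹]`, the product of `Spec A` with `𝔾_m`. -/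
noncomputable def torS (R A : Type) [CommRing R] [CommRing A] [Algebra R A] : Sch R :=
  aff R (LaurentPolynomial A)

/-- The groups `G n X` have the properties of the groups `K'_n(X)`, the Quillen `K`-groups of the
coherent sheaves on the schemes `X` of finite type over the noetherian ring `R`:

* `iso`: isomorphic schemes have isomorphic groups;
* `localization`: the exact localization sequence;
* `bundle`: homotopy invariance for the affine bundles `Spec A[w_1, …, w_m] / (∑ f_l w_l - 1) → U`
  of Jouanolou, where `U` is the complement of `f = 0` in `Spec A`;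
* `torus`: the fundamental theorem, `K'_n(X)` is a direct summand of `K'_n(X × 𝔾_m)`;
* `base`: the groups `K_n(R)` are finitely generated. -/
structure IsKTheory (R : Type) [CommRing R] (G : ℕ → Sch R → Type) [∀ n X, AddCommGroup (G n X)] :
    Prop where
  iso : ∀ {X Y : Sch R}, FT False X → Nonempty (X ≅ Y) → ∀ n, Nonempty (G n X ≃+ G n Y)
  localization : ∀ {Z X U : Sch R} (i : Z ⟶ X) (j : U ⟶ X), FT False X → IsTriple i j →
    LongExact (fun n => G n Z) (fun n => G n X) fun n => G n U
  bundle : ∀ (A : Type) [CommRing A] [Algebra R A] [Algebra.FiniteType R A] (m : ℕ)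
    (f : Fin m → A) (U : Sch R), IsNonzeroLocus f U → ∀ n, Nonempty (G n U ≃+ G n (jouS R f))
  torus : ∀ (A : Type) [CommRing A] [Algebra R A] [Algebra.FiniteType R A], ∀ n,
    IsSummand (G n (aff R A)) (G n (torS R A))
  base : ∀ n, AddGroup.FG (G n (aff R R))

variable {R : Type} [CommRing R] {G : ℕ → Sch R → Type} [∀ n X, AddCommGroup (G n X)]

/-- The groups in degrees at most `N` are finitely generated. -/
def FGUp (G : ℕ → Sch R → Type) [∀ n X, AddCommGroup (G n X)] (N : ℕ) (X : Sch R) : Prop :=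
  ∀ n ≤ N, AddGroup.FG (G n X)

lemma fg_of_retract {A B : Type} [AddCommGroup A] [AddCommGroup B] (s : A →+ B) (r : B →+ A)
    (h : r.comp s = AddMonoidHom.id A) (hB : AddGroup.FG B) : AddGroup.FG A := by
  have hr : Function.Surjective r := fun a => ⟨s a, DFunLike.congr_fun h a⟩
  exact AddGroup.fg_of_surjective hr

lemma fg_of_surj {A B : Type} [AddCommGroup A] [AddCommGroup B] (r : B →+ A)
    (hr : Function.Surjective r) (hB : AddGroup.FG B) : AddGroup.FG A :=
  AddGroup.fg_of_surjective hr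

/-- Finite generation of the groups `K'_n(X)` has the closure properties `Uni2`. -/
theorem uni2_fg (hG : IsKTheory R G) (N : ℕ) : Uni2 False (FGUp G N) (FGUp G (N + 1)) where
  iso hX e h n hn := by
    obtain ⟨e⟩ := hG.iso hX e n
    exact fg_of_equiv e (h n hn)
  isoQ hX e h n hn := by
    obtain ⟨e⟩ := hG.iso hX e n
    exact fg_of_equiv e (h n hn)
  total i j hX ht hZ hU n hn := by
    obtain ⟨⟨a, b, c⟩, h1, -, -⟩ := hG.localization i j hX ht
    exact fg_of_exact (h1 n) (hZ n hn) (hU n hn)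
  opened i j hX ht hZ hX' n hn := by
    obtain ⟨⟨a, b, c⟩, -, ⟨h2, h4⟩, -⟩ := hG.localization i j hX ht
    cases n with
    | zero => exact fg_of_surj _ h4 (hX' 0 hn)
    | succ n => exact fg_of_exact (h2 n) (hX' (n + 1) hn) (hZ n (by omega))
  closed i j hX ht hX' hU n hn := by
    obtain ⟨⟨a, b, c⟩, -, -, h3⟩ := hG.localization i j hX ht
    exact fg_of_exact (h3 n) (hU (n + 1) (by omega)) (hX' n hn)
  space M n _ := by
    obtain ⟨e⟩ := hG.bundle R (M + 1) (f1 R M) (aff R R) ⟨𝟙 _, inferInstance, range_id M⟩ n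
    obtain ⟨e2⟩ := hG.iso (ft_aff False) ⟨(affIso (jouOne R M)).symm⟩ n
    exact fg_of_equiv e2 (fg_of_equiv e (hG.base n))
  jouanolou A _ _ _ m f U j hj hr h n hn := by
    obtain ⟨e⟩ := hG.bundle A m f U ⟨j, hj, hr⟩ n
    exact fg_of_equiv e.symm (h n hn)
  torus A _ _ _ h n hn := by
    obtain ⟨s, r, hs⟩ := hG.torus A n
    exact fg_of_retract s r hs (h n hn)

end Q54.CU
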