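import Pool.Agent.Z125.UN.Sym

/-!
# Direct sums of trilinear forms

The zero set of the bilinear equations of a direct sum of two trilinear forms in disjoint sets of
variables is the product of the two zero sets.
-/

set_option autoImplicit false

namespace Q54.CU

open MvPolynomial Pool.Agent.Y116.UV Pool.Agent.Z125.UN CategoryTheory AlgebraicGeometry
open scoped TensorProduct

variable {R : Type} [CommRing R]

section

variable {α β γ α' β' γ' : Type}

/-- The direct sum of two trilinear forms in disjoint sets of variables. -/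
def dsum (T : α → β → γ → R) (T' : α' → β' → γ' → R) : α ⊕ α' → β ⊕ β' → γ ⊕ γ' → R
  | Sum.inl i, Sum.inl j, Sum.inl k => T i j k
  | Sum.inr i, Sum.inr j, Sum.inr k => T' i j k
  | _, _, _ => 0

variable [Fintype β] [Fintype γ] [Fintype β'] [Fintype γ'] (T : α → β → γ → R)
  (T' : α' → β' → γ' → R)

lemma aeval_dsum_inl {C : Type} [CommRing C] [Algebra R C] (v : (β ⊕ β') ⊕ (γ ⊕ γ') → C) (i : α) :
    aeval v (bl (dsum T T') (Sum.inl i)) = aeval (v ∘ Sum.map Sum.inl Sum.inl) (bl T i) := by
  rw [aeval_bl, aeval_bl]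
  simp only [Fintype.sum_sum_type, dsum, map_zero, zero_mul, Finset.sum_const_zero, add_zero,
    Function.comp_apply, Sum.map_inl, Sum.map_inr]

lemma aeval_dsum_inr {C : Type} [CommRing C] [Algebra R C] (v : (β ⊕ β') ⊕ (γ ⊕ γ') → C) (i : α') :
    aeval v (bl (dsum T T') (Sum.inr i)) = aeval (v ∘ Sum.map Sum.inr Sum.inr) (bl T' i) := by
  rw [aeval_bl, aeval_bl]
  simp only [Fintype.sum_sum_type, dsum, map_zero, zero_mul, Finset.sum_const_zero, zero_add,
    Function.comp_apply, Sum.map_inl, Sum.map_inr]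

/-- The values of the coordinates. -/
noncomputable def dsV : (β ⊕ β') ⊕ (γ ⊕ γ') → Pc (bl T) 1 ⊗[R] Pc (bl T') 1 :=
  Sum.elim (Sum.elim (fun j => pv (bl T) 1 (Sum.inl j) ⊗ₜ 1) fun j => 1 ⊗ₜ pv (bl T') 1 (Sum.inl j))
    (Sum.elim (fun k => pv (bl T) 1 (Sum.inr k) ⊗ₜ 1) fun k => 1 ⊗ₜ pv (bl T') 1 (Sum.inr k))

lemma dsV_inl : dsV T T' ∘ Sum.map Sum.inl Sum.inl =
    fun s => (Algebra.TensorProduct.includeLeft : Pc (bl T) 1 →ₐ[R] _) (pv (bl T) 1 s) := by
  funext s
  rcases s with j | k <;> rfl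

lemma dsV_inr : dsV T T' ∘ Sum.map Sum.inr Sum.inr =
    fun s => (Algebra.TensorProduct.includeRight : Pc (bl T') 1 →ₐ[R] _) (pv (bl T') 1 s) := by
  funext s
  rcases s with j | k <;> rfl

/-- From the equations of the direct sum to the tensor product. -/
noncomputable def dsF : Pc (bl (dsum T T')) 1 →ₐ[R] Pc (bl T) 1 ⊗[R] Pc (bl T') 1 :=
  pcLift _ _ (dsV T T')
    (by
      rintro (i | i)
      · rw [aeval_dsum_inl, dsV_inl, aeval_pv_comp, pc_rel, map_zero]
      · rw [aeval_dsum_inr, dsV_inr, aeval_pv_comp, pc_rel, map_zero])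
    (by rw [map_one]; exact isUnit_one)

/-- The first factor. -/
noncomputable def dsL : Pc (bl T) 1 →ₐ[R] Pc (bl (dsum T T')) 1 :=
  pcLift _ _ (pv (bl (dsum T T')) 1 ∘ Sum.map Sum.inl Sum.inl)
    (fun i => by rw [← aeval_dsum_inl T T', pc_aeval, pc_rel])
    (by rw [map_one]; exact isUnit_one)

/-- The second factor. -/
noncomputable def dsR : Pc (bl T') 1 →ₐ[R] Pc (bl (dsum T T')) 1 :=
  pcLift _ _ (pv (bl (dsum T T')) 1 ∘ Sum.map Sum.inr Sum.inr)
    (fun i => by rw [← aeval_dsum_inr T T', pc_aeval, pc_rel])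
    (by rw [map_one]; exact isUnit_one)

/-- The equations of a direct sum and the tensor product. -/
noncomputable def dsE : Pc (bl (dsum T T')) 1 ≃ₐ[R] Pc (bl T) 1 ⊗[R] Pc (bl T') 1 :=
  AlgEquiv.ofAlgHom (dsF T T') (Algebra.TensorProduct.productMap (dsL T T') (dsR T T'))
    (by
      apply Algebra.TensorProduct.ext
      · apply pc_ext
        intro s
        change dsF T T' (Algebra.TensorProduct.productMap (dsL T T') (dsR T T')
          (pv (bl T) 1 s ⊗ₜ 1)) = pv (bl T) 1 s ⊗ₜ 1
        rw [Algebra.TensorProduct.productMap_apply_tmul, map_one, mul_one, dsL, pcLift_pv,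
          Function.comp_apply, dsF, pcLift_pv]
        exact congrFun (dsV_inl T T') s
      · apply pc_ext
        intro s
        change dsF T T' (Algebra.TensorProduct.productMap (dsL T T') (dsR T T')
          (1 ⊗ₜ pv (bl T') 1 s)) = 1 ⊗ₜ pv (bl T') 1 s
        rw [Algebra.TensorProduct.productMap_apply_tmul, map_one, one_mul, dsR, pcLift_pv,
          Function.comp_apply, dsF, pcLift_pv]
        exact congrFun (dsV_inr T T') s)
    (by
      apply pc_ext
      intro s
      change Algebra.TensorProduct.productMap (dsL T T') (dsR T T')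
        (dsF T T' (pv (bl (dsum T T')) 1 s)) = pv (bl (dsum T T')) 1 s
      rw [dsF, pcLift_pv]
      rcases s with (j | j) | (k | k)
      · change Algebra.TensorProduct.productMap (dsL T T') (dsR T T')
          (pv (bl T) 1 (Sum.inl j) ⊗ₜ 1) = _
        rw [Algebra.TensorProduct.productMap_apply_tmul, map_one, mul_one, dsL, pcLift_pv]
        rfl
      · change Algebra.TensorProduct.productMap (dsL T T') (dsR T T')
          (1 ⊗ₜ pv (bl T') 1 (Sum.inl j)) = _
        rw [Algebra.TensorProduct.productMap_apply_tmul, map_one, one_mul, dsR, pcLift_pv]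
        rfl
      · change Algebra.TensorProduct.productMap (dsL T T') (dsR T T')
          (pv (bl T) 1 (Sum.inr k) ⊗ₜ 1) = _
        rw [Algebra.TensorProduct.productMap_apply_tmul, map_one, mul_one, dsL, pcLift_pv]
        rfl
      · change Algebra.TensorProduct.productMap (dsL T T') (dsR T T')
          (1 ⊗ₜ pv (bl T') 1 (Sum.inr k)) = _
        rw [Algebra.TensorProduct.productMap_apply_tmul, map_one, one_mul, dsR, pcLift_pv]
        rfl)

/-- The zero set of bilinear equations contains the origin. -/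
lemma nontrivial_bl [Nontrivial R] : Nontrivial (Pc (bl T) 1) := by
  let f : Pc (bl T) 1 →ₐ[R] R := pcLift _ _ (fun _ => 0)
    (fun i => by
      rw [aeval_bl]
      simp)
    (by rw [map_one]; exact isUnit_one)
  exact f.toRingHom.domain_nontrivial

end

/-- The property `P` descends from products with a scheme which is not empty. -/
def FromProducts (P : Sch R → Prop) : Prop :=
  ∀ (A B : Type) [CommRing A] [CommRing B] [Algebra R A] [Algebra R B] [Algebra.FiniteType R A]
    [Algebra.FiniteType R B] [Nontrivial B], P (aff R (A ⊗[R] B)) → P (aff R A)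

section

variable {sep : Prop} {P : Sch R → Prop} (hP : Bnd sep P) (hQ : FromProducts P)

include hP in
lemma hyp_bl_iff {α β γ : Type} [Fintype α] [Fintype β] [Fintype γ] (T : α → β → γ → R) :
    P (aff R (Hyp T)) ↔ P (aff R (Pc (bl T) 1)) := by
  let e := hypRename (R := R) (Fintype.equivFin α).symm (Equiv.refl β) (Equiv.refl γ) T
  rw [← hyp_iff' hP T, ← hyp_iff hP]
  exact ⟨iso_alg hP.toUni e.symm, iso_alg hP.toUni e⟩

include hP hQ

lemma of_dsum [Nontrivial R] {α β γ α' β' γ' : Type} [Fintype α] [Fintype β] [Fintype γ]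
    [Fintype α'] [Fintype β'] [Fintype γ'] (T : α → β → γ → R) (T' : α' → β' → γ' → R)
    (h : P (aff R (Hyp (dsum T T')))) : P (aff R (Hyp T)) := by
  rw [hyp_bl_iff hP] at h ⊢
  have := nontrivial_bl T'
  exact hQ _ (Pc (bl T') 1) (iso_alg hP.toUni (dsE T T') h)

/-- The property descends to components of trilinear forms. -/
theorem of_component [Nontrivial R] {α β γ α₀ β₀ γ₀ : Type} [Fintype α] [Fintype β] [Fintype γ]
    [Fintype α₀] [Fintype β₀] [Fintype γ₀] (T : α → β → γ → R) (a : α₀ → α) (b : β₀ → β)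
    (c : γ₀ → γ) (ha : Function.Injective a) (hb : Function.Injective b)
    (hc : Function.Injective c)
    (h0 : ∀ i j k, T i j k ≠ 0 → (i ∈ Set.range a ∧ j ∈ Set.range b ∧ k ∈ Set.range c) ∨
      (i ∉ Set.range a ∧ j ∉ Set.range b ∧ k ∉ Set.range c))
    (h : P (aff R (Hyp T))) : P (aff R (Hyp fun i j k => T (a i) (b j) (c k))) := by
  classical
  let ea : α₀ ⊕ {x // x ∉ Set.range a} ≃ α :=
    ((Equiv.ofInjective a ha).sumCongr (Equiv.refl _)).trans (Equiv.Set.sumCompl (Set.range a))
  let eb : β₀ ⊕ {x // x ∉ Set.range b} ≃ β :=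
    ((Equiv.ofInjective b hb).sumCongr (Equiv.refl _)).trans (Equiv.Set.sumCompl (Set.range b))
  let ec : γ₀ ⊕ {x // x ∉ Set.range c} ≃ γ :=
    ((Equiv.ofInjective c hc).sumCongr (Equiv.refl _)).trans (Equiv.Set.sumCompl (Set.range c))
  have h1 : (fun i j k => T (ea i) (eb j) (ec k)) = dsum (fun i j k => T (a i) (b j) (c k))
      (fun (i : {x // x ∉ Set.range a}) (j : {x // x ∉ Set.range b})
        (k : {x // x ∉ Set.range c}) => T i.1 j.1 k.1) := by
    have ha1 : ∀ i, ea (Sum.inl i) = a i := fun _ => rfl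
    have ha2 : ∀ i, ea (Sum.inr i) = i.1 := fun _ => rfl
    have hb1 : ∀ i, eb (Sum.inl i) = b i := fun _ => rfl
    have hb2 : ∀ i, eb (Sum.inr i) = i.1 := fun _ => rfl
    have hc1 : ∀ i, ec (Sum.inl i) = c i := fun _ => rfl
    have hc2 : ∀ i, ec (Sum.inr i) = i.1 := fun _ => rfl
    funext i j k
    rcases i with i | i <;> rcases j with j | j <;> rcases k with k | k <;>
      simp only [dsum, ha1, ha2, hb1, hb2, hc1, hc2]
    · by_contra h2
      rcases h0 _ _ _ h2 with h3 | h3
      · exact k.2 h3.2.2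
      · exact h3.1 ⟨_, rfl⟩
    · by_contra h2
      rcases h0 _ _ _ h2 with h3 | h3
      · exact j.2 h3.2.1
      · exact h3.1 ⟨_, rfl⟩
    · by_contra h2
      rcases h0 _ _ _ h2 with h3 | h3
      · exact j.2 h3.2.1
      · exact h3.1 ⟨_, rfl⟩
    · by_contra h2
      rcases h0 _ _ _ h2 with h3 | h3
      · exact i.2 h3.1
      · exact h3.2.1 ⟨_, rfl⟩
    · by_contra h2
      rcases h0 _ _ _ h2 with h3 | h3
      · exact i.2 h3.1
      · exact h3.2.1 ⟨_, rfl⟩
    · by_contra h2
      rcases h0 _ _ _ h2 with h3 | h3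
      · exact i.2 h3.1
      · exact h3.2.2 ⟨_, rfl⟩
  refine of_dsum hP hQ _ (fun (i : {x // x ∉ Set.range a}) (j : {x // x ∉ Set.range b})
        (k : {x // x ∉ Set.range c}) => T i.1 j.1 k.1) ?_
  rw [← h1]
  exact iso_alg hP.toUni (hypRename ea eb ec T).symm h

end

end Q54.CU
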