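import Pool.Agent.Q54.CU.Univ

/-!
# Smoothness of affine bundles and of the hypersurfaces `∑ λ_j q_j(x) = 1`
-/

set_option autoImplicit false

universe u

namespace Q54.CU

open MvPolynomial CategoryTheory AlgebraicGeometry TopologicalSpace

instance localAtSource_smooth : IsZariskiLocalAtSource @Smooth.{u} :=
  HasRingHomProperty.instIsZariskiLocalAtSource (P := @Smooth.{u}) (Q := RingHom.Smooth)

/-- The projection from an affine space is smooth. -/
lemma smooth_C (A : Type u) [CommRing A] (r : ℕ) :
    Smooth (Spec.map (CommRingCat.ofHom (C : A →+* MvPolynomial (Fin r) A))) := by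
  rw [HasRingHomProperty.Spec_iff (P := @Smooth)]
  exact RingHom.smooth_algebraMap.2 ⟨inferInstance, inferInstance⟩

/-- Affine bundles are smooth. -/
theorem IsAffineBundle.smooth {E B : Scheme.{u}} {p : E ⟶ B} {r : ℕ} (h : IsAffineBundle r p) :
    Smooth p := by
  choose A j k hj hb hp using h
  have hk : ∀ b, IsOpenImmersion (k b) := fun b => by
    have := hj b
    exact MorphismProperty.of_isPullback (P := @IsOpenImmersion) (hp b).flip inferInstance
  have hcov : ∀ x : E, ∃ (b : B) (y : Spec (CommRingCat.of (MvPolynomial (Fin r) (A b)))),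
      k b y = x := by
    intro x
    obtain ⟨z, hz⟩ := hb (p x)
    obtain ⟨y, hy, -⟩ := Scheme.Pullback.exists_preimage_pullback x z hz.symm
    refine ⟨p x, (hp (p x)).isoPullback.inv y, ?_⟩
    rw [← Scheme.Hom.comp_apply, (hp (p x)).isoPullback_inv_fst]
    exact hy
  let 𝒰 : E.OpenCover := Scheme.Cover.mkOfCovers B
    (fun b => Spec (CommRingCat.of (MvPolynomial (Fin r) (A b)))) k hcov hk
  refine IsZariskiLocalAtSource.of_openCover (P := @Smooth) 𝒰 fun b => ?_
  have h1 : Smooth (Spec.map (CommRingCat.ofHom (C : A b →+* MvPolynomial (Fin r) (A b)))) :=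
    smooth_C (A b) r
  have h2 := hj b
  change Smooth (k b ≫ p)
  rw [(hp b).w]
  infer_instance

/-- **The hypersurface `∑ λ_j q_j(x) = 1` is smooth over the base ring**. -/
theorem smooth_hyp {R : Type u} [CommRing R] {M r : ℕ} (q : Fin (r + 1) → MvPolynomial (Fin M) R) :
    Smooth (hypO q 1).hom := by
  have h1 : Smooth (hypMor q) := (hypMor_bundle q).smooth
  have h2 : Smooth (affStr R M) := smooth_C R M
  have h3 : (hypO q 1).hom = (hypMor q ≫ (compl q).ι) ≫ affStr R M := by
    rw [hypMor_fac]
    rfl
  have h4 : Smooth (compl q).ι := inferInstance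
  have h5 : Smooth (hypMor q ≫ (compl q).ι) :=
    MorphismProperty.comp_mem @Smooth.{u} _ _ h1 h4
  rw [h3]
  exact MorphismProperty.comp_mem @Smooth.{u} _ _ h5 h2

end Q54.CU
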