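import Pool.Agent.Q54.CU.Univ

/-!
# Homology theories with twists and regulators: definitions
-/

set_option autoImplicit false

universe u v w x

namespace Q54.CU

open MvPolynomial CategoryTheory AlgebraicGeometry TopologicalSpace

/-- The schemes over `R`. -/
abbrev SchO (R : Type u) [CommRing R] : Type (u + 1) := Over (Spec (CommRingCat.of R))

/-- The data of a theory of higher Chow groups and of a homology theory for the schemes over `k`.
`A n s X` stands for the group `CH_n(X, s)` (Bloch's higher Chow groups, indexed by dimension, with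
coefficients in a field); `H n s X` stands for the Borel-Moore homology `H_(2 n + s)(X, K(n))`, an
object of an abelian category `𝓜` (mixed Hodge structures, or representations of a Galois group)
with unit object `I`; and `c` is the cycle class map (regulator) from `CH_n(X, s)` to the group
`Hom(I, H_(2 n + s)(X, K(n)))` of Hodge classes or of Galois invariants. The additivity of the maps
is never used, so only the zero element of `A n s X` is recorded. -/
structure RegData (k : Type u) [Field k] (𝓜 : Type w) [Category.{v} 𝓜] [Abelian 𝓜] (I : 𝓜) where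
  A : ℤ → ℤ → SchO k → Type x
  [zero : ∀ n s X, Zero (A n s X)]
  H : ℤ → ℤ → SchO k → 𝓜
  c : ∀ n s X, A n s X → (I ⟶ H n s X)

attribute [instance] RegData.zero

variable {k : Type u} [Field k] {𝓜 : Type w} [Category.{v} 𝓜] [Abelian 𝓜] {I : 𝓜}

/-- The scheme `X` is separated and of finite type over `k`. -/
structure IsVar (X : SchO k) : Prop where
  ft : IsFT X
  sep : IsSeparated X.hom

/-- The point. -/
noncomputable def pt (k : Type u) [Field k] : SchO k := Over.mk (𝟙 _)

/-- The composite of `f : A ⟶ B` and `g : B ⟶ C` is zero and the sequence is exact at `B`. -/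
def ExactAt {A B C : 𝓜} (f : A ⟶ B) (g : B ⟶ C) : Prop :=
  ∃ h : f ≫ g = 0, (ShortComplex.mk f g h).Exact

/-- Maps of a localization sequence `A_n(Z, s) → A_n(X, s) → A_n(U, s) → A_n(Z, s - 1)` of the first
theory. -/
structure ChowSeq (D : RegData.{u, v, w, x} k 𝓜 I) (Z X U : SchO k) where
  α : ∀ n s, D.A n s Z → D.A n s X
  β : ∀ n s, D.A n s X → D.A n s U
  δ : ∀ n s, D.A n (s + 1) U → D.A n s Z

/-- The sequence is exact. -/
def ChowSeq.IsExact {D : RegData.{u, v, w, x} k 𝓜 I} {Z X U : SchO k} (c : ChowSeq D Z X U) :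
    Prop :=
  ∀ n s, Function.Exact (c.α n s) (c.β n s) ∧ Function.Exact (c.β n (s + 1)) (c.δ n s) ∧
    Function.Exact (c.δ n s) (c.α n s)

/-- Maps of a localization sequence `H_n(Z, s) → H_n(X, s) → H_n(U, s) → H_n(Z, s - 1)` of the second
theory. -/
structure HomSeq (D : RegData.{u, v, w, x} k 𝓜 I) (Z X U : SchO k) where
  a : ∀ n s, D.H n s Z ⟶ D.H n s X
  b : ∀ n s, D.H n s X ⟶ D.H n s U
  d : ∀ n s, D.H n (s + 1) U ⟶ D.H n s Z

/-- The sequence is exact. -/
def HomSeq.IsExact {D : RegData.{u, v, w, x} k 𝓜 I} {Z X U : SchO k} (h : HomSeq D Z X U) : Prop :=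
  ∀ n s, ExactAt (h.a n s) (h.b n s) ∧ ExactAt (h.b n (s + 1)) (h.d n s) ∧
    ExactAt (h.d n s) (h.a n s)

/-- The regulators are compatible with the maps of the two localization sequences. -/
structure IsCompat {D : RegData.{u, v, w, x} k 𝓜 I} {Z X U : SchO k} (c : ChowSeq D Z X U)
    (h : HomSeq D Z X U) : Prop where
  ca : ∀ n s z, D.c n s X (c.α n s z) = D.c n s Z z ≫ h.a n s
  cb : ∀ n s x, D.c n s U (c.β n s x) = D.c n s X x ≫ h.b n s
  cd : ∀ n s y, D.c n s Z (c.δ n s y) = D.c n (s + 1) U y ≫ h.d n s

/-- The localization sequences of both theories for a closed subscheme `Z` of `X` with complement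
`U`, and their compatibility with the regulators. -/
def HasLocalization (D : RegData.{u, v, w, x} k 𝓜 I) (Z X U : SchO k) : Prop :=
  ∃ (c : ChowSeq D Z X U) (h : HomSeq D Z X U), c.IsExact ∧ h.IsExact ∧ IsCompat c h

/-- The theories do not change in an affine bundle of rank `r`, except for a shift of the twist. -/
def HasHomotopy (D : RegData.{u, v, w, x} k 𝓜 I) (r : ℕ) (E B : SchO k) : Prop :=
  ∃ (ε : ∀ n s, D.A n s B ≃ D.A (n + r) s E) (e : ∀ n s, D.H n s B ≅ D.H (n + r) s E),
    ∀ n s y, D.c (n + r) s E (ε n s y) = D.c n s B y ≫ (e n s).hom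

/-- The formal properties of higher Chow groups and of Borel-Moore homology: localization sequences,
homotopy invariance for affine bundles, `CH_n(Spec k) = 0` for `n < 0` and `H_i(Spec k) = 0` for
`i ≠ 0`. -/
structure IsRegTheory (D : RegData.{u, v, w, x} k 𝓜 I) : Prop where
  localization : ∀ {Z X U : SchO k} (i : Z ⟶ X) (j : U ⟶ X), IsVar X → IsDecomp i j →
    HasLocalization D Z X U
  homotopy : ∀ {E B : SchO k} (r : ℕ) (p : E ⟶ B), IsVar E → IsVar B → IsAffineBundle r p.left →
    HasHomotopy D r E B
  chow_pt : ∀ n < 0, Subsingleton (D.A n 0 (pt k))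
  hom_pt : ∀ n s, 2 * n + s ≠ 0 → Limits.IsZero (D.H n s (pt k))

/-- There is an affine bundle over `X` whose total space is an affine scheme. By Jouanolou all
quasi-projective schemes over a field have this property. -/
def HasAffineTorsor (X : SchO k) : Prop :=
  ∃ (T : SchO k) (r : ℕ) (p : T ⟶ X), IsVar T ∧ IsAffine T.left ∧ IsAffineBundle r p.left

end Q54.CU
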