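import Pool.Agent.Q54.CU.Ds
import Pool.Agent.Y116.UV.Graph

/-!
# One sequence of smooth affine cubic hypersurfaces

The hypersurface `∑_{s ⊆ [n]³} ∑_{(i, j, k) ∈ s} x_{s,i} y_{s,j} z_{s,k} = 1`.
-/

set_option autoImplicit false

namespace Q54.CU

open MvPolynomial Pool.Agent.Y116.UV Pool.Agent.Z125.UN CategoryTheory AlgebraicGeometry

/-- The pairs of a set `s` of triples of elements of `{0, …, n - 1}` and an element of
`{0, …, n - 1}`. -/
abbrev Idx (n : ℕ) : Type := Finset (Fin n × Fin n × Fin n) × Fin n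

/-- The polynomial `∑_s ∑_{(i, j, k) ∈ s} x_{s,i} y_{s,j} z_{s,k}`, where `s` runs over all sets of
triples of elements of `{0, …, n - 1}`. -/
noncomputable def cubPoly (R : Type) [CommRing R] (n : ℕ) :
    MvPolynomial (Idx n ⊕ (Idx n ⊕ Idx n)) R :=
  ∑ s : Finset (Fin n × Fin n × Fin n), ∑ h ∈ s,
    X (Sum.inl (s, h.1)) * X (Sum.inr (Sum.inl (s, h.2.1))) * X (Sum.inr (Sum.inr (s, h.2.2)))

/-- The cubic hypersurface `∑_s ∑_{(i, j, k) ∈ s} x_{s,i} y_{s,j} z_{s,k} = 1` over `R`. -/
noncomputable def cubS (R : Type) [CommRing R] (n : ℕ) : Sch R :=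
  aff R (MvPolynomial (Idx n ⊕ (Idx n ⊕ Idx n)) R ⧸ Ideal.span {cubPoly R n - 1})

variable {R : Type} [CommRing R]

/-- The coefficients. -/
def allT (R : Type) [CommRing R] (n : ℕ) (x y z : Idx n) : R :=
  if x.1 = y.1 ∧ x.1 = z.1 ∧ (x.2, y.2, z.2) ∈ x.1 then 1 else 0

lemma tri_all (n : ℕ) : tri (allT R n) = cubPoly R n := by
  have h2 : ∀ s : Finset (Fin n × Fin n × Fin n), ∑ h ∈ s, X (Sum.inl (s, h.1)) *
      X (Sum.inr (Sum.inl (s, h.2.1))) * X (Sum.inr (Sum.inr (s, h.2.2))) =
      ∑ i : Fin n, ∑ j : Fin n, ∑ k : Fin n, if (i, j, k) ∈ s then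
        (X (Sum.inl (s, i)) * X (Sum.inr (Sum.inl (s, j))) * X (Sum.inr (Sum.inr (s, k))) :
          MvPolynomial (Idx n ⊕ (Idx n ⊕ Idx n)) R) else 0 := by
    intro s
    rw [← Finset.filter_univ_mem s, Finset.sum_filter, Fintype.sum_prod_type]
    simp only [Fintype.sum_prod_type, Finset.filter_univ_mem]
  rw [cubPoly, tri, Fintype.sum_prod_type]
  apply Finset.sum_congr rfl
  intro s _
  rw [h2 s]
  apply Finset.sum_congr rfl
  intro i _
  rw [Fintype.sum_prod_type, Finset.sum_eq_single s]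
  · apply Finset.sum_congr rfl
    intro j _
    rw [Fintype.sum_prod_type, Finset.sum_eq_single s]
    · apply Finset.sum_congr rfl
      intro k _
      by_cases h : (i, j, k) ∈ s
      · rw [allT, if_pos ⟨rfl, rfl, h⟩, if_pos h, map_one, one_mul]
      · rw [allT, if_neg fun h3 => h h3.2.2, if_neg h, map_zero, zero_mul, zero_mul, zero_mul]
    · intro t _ ht
      apply Finset.sum_eq_zero
      intro k _
      rw [allT, if_neg fun h3 => ht h3.2.1.symm, map_zero, zero_mul, zero_mul, zero_mul]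
    · intro h
      exact absurd (Finset.mem_univ s) h
  · intro t _ ht
    apply Finset.sum_eq_zero
    intro j _
    apply Finset.sum_eq_zero
    intro k _
    rw [allT, if_neg fun h3 => ht h3.1.symm, map_zero, zero_mul, zero_mul, zero_mul]
  · intro h
    exact absurd (Finset.mem_univ s) h

lemma cubS_eq (n : ℕ) : cubS R n = aff R (Hyp (allT R n)) := by
  unfold cubS Hyp
  rw [tri_all]

lemma smooth_cubS {k : Type} [Field k] (n : ℕ) : Smooth (cubS k n).hom := by
  rw [cubS_eq]
  exact smooth_aff (hyp_smooth _)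

section

variable {sep : Prop} {P : Sch R → Prop} (hP : Bnd sep P) (hQ : FromProducts P)

include hP hQ

/-- The hypersurface of a tripartite hypergraph is decided by every large member of the sequence. -/
theorem of_cubS [Nontrivial R] {a b c : ℕ} (H : Finset (Fin a × Fin b × Fin c)) {n : ℕ}
    (ha : a ≤ n) (hb : b ≤ n) (hc : c ≤ n) (h : P (cubS R n)) : P (tripS R H) := by
  classical
  rw [cubS_eq] at h
  let s : Finset (Fin n × Fin n × Fin n) :=
    H.image fun x => (Fin.castLE ha x.1, Fin.castLE hb x.2.1, Fin.castLE hc x.2.2)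
  have hs : ∀ i j k, (Fin.castLE ha i, Fin.castLE hb j, Fin.castLE hc k) ∈ s ↔ (i, j, k) ∈ H := by
    intro i j k
    rw [Finset.mem_image]
    constructor
    · rintro ⟨⟨i', j', k'⟩, h1, h2⟩
      simp only [Prod.mk.injEq] at h2
      have h3 := Fin.castLE_injective ha h2.1
      have h4 := Fin.castLE_injective hb h2.2.1
      have h5 := Fin.castLE_injective hc h2.2.2
      change i' = i at h3
      change j' = j at h4
      change k' = k at h5
      rw [← h3, ← h4, ← h5]
      exact h1
    · intro h1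
      exact ⟨(i, j, k), h1, rfl⟩
  have hinj : ∀ {m : ℕ} (hm : m ≤ n), Function.Injective fun i : Fin m => (s, Fin.castLE hm i) := by
    intro m hm i j hij
    exact Fin.castLE_injective hm (Prod.mk.inj hij).2
  have h1 := of_component hP hQ (allT R n) (fun i : Fin a => (s, Fin.castLE ha i))
    (fun i : Fin b => (s, Fin.castLE hb i)) (fun i : Fin c => (s, Fin.castLE hc i)) (hinj ha)
    (hinj hb) (hinj hc) ?_ h
  · have h2 : (fun (i : Fin a) (j : Fin b) (k : Fin c) => allT R n (s, Fin.castLE ha i)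
        (s, Fin.castLE hb j) (s, Fin.castLE hc k)) =
        fun i j k => if (i, j, k) ∈ H then (1 : R) else 0 := by
      funext i j k
      by_cases h3 : (i, j, k) ∈ H
      · rw [if_pos h3]
        exact if_pos ⟨rfl, rfl, (hs i j k).2 h3⟩
      · rw [if_neg h3]
        exact if_neg fun h4 => h3 ((hs i j k).1 h4.2.2)
    rw [h2] at h1
    unfold tripS Trip
    rw [← tri_ind]
    exact h1
  · intro x y z hT
    have hT2 : x.1 = y.1 ∧ x.1 = z.1 ∧ (x.2, y.2, z.2) ∈ x.1 := by
      by_contra h3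
      exact hT (if_neg h3)
    obtain ⟨h3, h4, h5⟩ := hT2
    by_cases hx : x.1 = s
    · left
      rw [hx, Finset.mem_image] at h5
      obtain ⟨⟨i, j, k⟩, -, h6⟩ := h5
      simp only [Prod.mk.injEq] at h6
      exact ⟨⟨i, Prod.ext hx.symm h6.1⟩, ⟨j, Prod.ext (hx.symm.trans h3) h6.2.1⟩,
        ⟨k, Prod.ext (hx.symm.trans h4) h6.2.2⟩⟩
    · right
      refine ⟨?_, ?_, ?_⟩
      · rintro ⟨i, rfl⟩
        exact hx rfl
      · rintro ⟨i, rfl⟩
        exact hx h3
      · rintro ⟨i, rfl⟩
        exact hx h4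

/-- Infinitely many members of the sequence decide the property for all (separated) schemes of
finite type. -/
theorem of_infinite [Nontrivial R] [IsNoetherianRing R]
    (hR : Function.Surjective (Int.cast : ℤ → R)) (h : {n : ℕ | P (cubS R n)}.Infinite)
    (X : Sch R) (hX : FT sep X) : P X := by
  refine universal_int hR hP.toUni ?_ X hX
  intro a b c H
  obtain ⟨n, hn, hn2⟩ := h.exists_gt (a + b + c)
  exact of_cubS hP hQ H (by omega) (by omega) (by omega) hn

end

end Q54.CU
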