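import Mathlib

/-!
# Noetherian induction for schemes of finite type
-/

set_option autoImplicit false

universe u

namespace Q54.CU

open CategoryTheory AlgebraicGeometry TopologicalSpace

variable {S : Scheme.{u}}

/-- The scheme `X` is of finite type over `S`. -/
structure IsFT (X : Over S) : Prop where
  loc : LocallyOfFiniteType X.hom
  qc : QuasiCompact X.hom

/-- The closed immersion `i` and the open immersion `j` have complementary images. -/
structure IsDecomp {Z X U : Over S} (i : Z ⟶ X) (j : U ⟶ X) : Prop where
  closed : IsClosedImmersion i.left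
  opn : IsOpenImmersion j.left
  range : Set.range j.left = (Set.range i.left)ᶜ

lemma IsFT.of_closed {Z X : Over S} (i : Z ⟶ X) (hi : IsClosedImmersion i.left) (h : IsFT X) :
    IsFT Z := by
  have h1 := h.loc
  have h2 := h.qc
  have h3 : Z.hom = i.left ≫ X.hom := (Over.w i).symm
  exact ⟨by rw [h3]; infer_instance, by rw [h3]; infer_instance⟩

lemma IsFT.noeth [IsLocallyNoetherian S] [CompactSpace S] {X : Over S} (h : IsFT X) :
    IsNoetherian X.left := by
  have h1 := h.loc
  have h2 := h.qc
  have h3 : IsLocallyNoetherian X.left := LocallyOfFiniteType.isLocallyNoetherian X.hom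
  have h4 : CompactSpace X.left := by
    have h5 := QuasiCompact.isCompact_preimage (f := X.hom) (U := Set.univ) isOpen_univ
      isCompact_univ
    rw [Set.preimage_univ] at h5
    exact isCompact_univ_iff.1 h5
  exact {}

lemma IsFT.of_open [IsLocallyNoetherian S] [CompactSpace S] {U X : Over S} (j : U ⟶ X)
    (hj : IsOpenImmersion j.left) (h : IsFT X) : IsFT U := by
  have h1 := h.loc
  have h2 := h.qc
  have h4 := h.noeth
  have h3 : U.hom = j.left ≫ X.hom := (Over.w j).symm
  refine ⟨by rw [h3]; infer_instance, ?_⟩
  rw [h3]
  have h5 : NoetherianSpace U.left := j.left.isOpenEmbedding.isInducing.noetherianSpace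
  infer_instance

/-- The closed subscheme with the given closed set as its image. -/
theorem exists_closed {Z : Scheme.{u}} (T : Closeds Z) :
    ∃ (W : Scheme.{u}) (g : W ⟶ Z), IsClosedImmersion g ∧ Set.range g = T := by
  refine ⟨_, (Scheme.IdealSheafData.vanishingIdeal T).subschemeι, inferInstance, ?_⟩
  rw [Scheme.IdealSheafData.range_subschemeι]
  simp

/-- **Noetherian induction**: a property of the schemes of finite type over `S` holds for all of
them if it holds for affine ones and for `X` if it holds for a closed subscheme of `X` and its open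
complement. -/
theorem devissage [IsLocallyNoetherian S] [CompactSpace S] (P : Over S → Prop)
    (glue : ∀ {Z X U : Over S} (i : Z ⟶ X) (j : U ⟶ X), IsFT X → IsDecomp i j →
      P Z → P U → P X)
    (aff : ∀ X : Over S, IsFT X → IsAffine X.left → P X) (X : Over S) (hX : IsFT X) : P X := by
  have hn := hX.noeth
  have key : ∀ T : Closeds X.left, ∀ (Z : Over S) (f : Z ⟶ X), IsClosedImmersion f.left →
      Set.range f.left ⊆ T → P Z := by
    intro T
    induction T using WellFoundedLT.induction with
    | ind T ih =>
      intro Z f hf hT
      have hZ : IsFT Z := hX.of_closed f hf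
      by_cases he : IsEmpty Z.left
      · exact aff Z hZ inferInstance
      · rw [not_isEmpty_iff] at he
        obtain ⟨z⟩ := he
        obtain ⟨_, ⟨V, hV, rfl⟩, hzV, -⟩ := Z.left.isBasis_affineOpens.exists_subset_of_mem_open
          (Set.mem_univ z) isOpen_univ
        obtain ⟨W, g, hg, hgr⟩ := exists_closed (Z := Z.left) ⟨(V : Set Z.left)ᶜ,
          V.isOpen.isClosed_compl⟩
        let ιV : (V : Scheme.{u}) ⟶ Z.left := Scheme.Opens.ι V
        let W' : Over S := Over.mk (g ≫ Z.hom)
        let i : W' ⟶ Z := Over.homMk g rfl
        let U' : Over S := Over.mk (ιV ≫ Z.hom)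
        let j : U' ⟶ Z := Over.homMk ιV rfl
        have hdec : IsDecomp i j := ⟨hg, (inferInstance : IsOpenImmersion ιV), by
          change Set.range (Scheme.Opens.ι V) = (Set.range g)ᶜ
          rw [hgr, Scheme.Opens.range_ι]
          exact (compl_compl _).symm⟩
        have hU' : P U' := aff U' (hZ.of_open j hdec.opn) hV
        have hcl : IsClosedImmersion (i ≫ f).left := by
          have h1 : IsClosedImmersion i.left := hg
          rw [Over.comp_left]
          infer_instance
        let T' : Closeds X.left := ⟨Set.range (i ≫ f).left, hcl.isClosedEmbedding.isClosed_range⟩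
        have hlt : T' < T := by
          refine lt_of_le_of_ne ?_ ?_
          · rintro _ ⟨w, rfl⟩
            exact hT ⟨i.left w, by rw [Over.comp_left]; rfl⟩
          · intro heq
            have h1 : f.left z ∈ T := hT ⟨z, rfl⟩
            rw [← heq] at h1
            obtain ⟨w, hw⟩ := h1
            rw [Over.comp_left] at hw
            have h2 : g w = z := f.left.isClosedEmbedding.injective hw
            have h3 : g w ∈ Set.range g := ⟨w, rfl⟩
            rw [hgr, h2] at h3
            exact h3 hzV
        exact glue i j hZ hdec (ih T' hlt W' (i ≫ f) hcl subset_rfl) hU'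
  exact key ⊤ X (𝟙 X) (by rw [Over.id_left]; infer_instance) (Set.subset_univ _)

end Q54.CU
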