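import Pool.Agent.Q54.CU.Geo

/-!
# Affine schemes of finite type as closed subschemes given by quadratic equations
-/

set_option autoImplicit false

universe u

namespace Q54.CU

open MvPolynomial CategoryTheory AlgebraicGeometry

variable {R : Type u} [CommRing R]

section extra

variable {M m : ℕ} (q : Fin m → MvPolynomial (Fin M) R) (N : ℕ)

/-- The equations with `N` additional variables, which are zero. -/
noncomputable def extraRels : Option (Fin m ⊕ Fin N) → MvPolynomial (Fin M ⊕ Fin N) R
  | none => 0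
  | some (Sum.inl j) => rename Sum.inl (q j)
  | some (Sum.inr k) => X (Sum.inr k)

lemma totalDegree_extraRels (hq : ∀ j, (q j).totalDegree ≤ 2) (k) :
    (extraRels q N k).totalDegree ≤ 2 := by
  rcases k with _ | j | k
  · change (0 : MvPolynomial (Fin M ⊕ Fin N) R).totalDegree ≤ 2
    simp
  · exact (totalDegree_rename_le _ _).trans (hq j)
  · change (X (Sum.inr k) : MvPolynomial (Fin M ⊕ Fin N) R).totalDegree ≤ 2
    rcases subsingleton_or_nontrivial R with h0 | h0
    · rw [Subsingleton.elim (X (R := R) (Sum.inr k : Fin M ⊕ Fin N)) 0]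
      simp
    · exact (totalDegree_X _).le.trans one_le_two

/-- The ideal of the equations. -/
noncomputable abbrev extraIdeal : Ideal (MvPolynomial (Fin M ⊕ Fin N) R) :=
  Ideal.span (Set.range (extraRels q N))

/-- One direction. -/
noncomputable def extraTo : (MvPolynomial (Fin M) R ⧸ Ideal.span (Set.range q)) →ₐ[R]
    (MvPolynomial (Fin M ⊕ Fin N) R ⧸ extraIdeal q N) :=
  Ideal.Quotient.liftₐ _ ((Ideal.Quotient.mkₐ R (extraIdeal q N)).comp (rename Sum.inl)) (by
    have h : Ideal.span (Set.range q) ≤
        RingHom.ker ((Ideal.Quotient.mkₐ R (extraIdeal q N)).comp (rename Sum.inl)) := by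
      rw [Ideal.span_le]
      rintro _ ⟨j, rfl⟩
      exact Ideal.Quotient.eq_zero_iff_mem.2 (Ideal.subset_span ⟨some (Sum.inl j), rfl⟩)
    exact fun a ha => h ha)

/-- The evaluation. -/
noncomputable def extraEv : MvPolynomial (Fin M ⊕ Fin N) R →ₐ[R]
    (MvPolynomial (Fin M) R ⧸ Ideal.span (Set.range q)) :=
  aeval (Sum.elim (fun i => Ideal.Quotient.mkₐ R _ (X i)) fun _ => 0)

lemma extraEv_rename (a : MvPolynomial (Fin M) R) :
    extraEv q N (rename Sum.inl a) = Ideal.Quotient.mkₐ R _ a := by
  have h : (extraEv q N).comp (rename Sum.inl) = Ideal.Quotient.mkₐ R _ := by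
    apply MvPolynomial.algHom_ext
    intro i
    rw [AlgHom.comp_apply, rename_X, extraEv, aeval_X]
    rfl
  exact DFunLike.congr_fun h a

/-- The other direction. -/
noncomputable def extraFrom : (MvPolynomial (Fin M ⊕ Fin N) R ⧸ extraIdeal q N) →ₐ[R]
    (MvPolynomial (Fin M) R ⧸ Ideal.span (Set.range q)) :=
  Ideal.Quotient.liftₐ _ (extraEv q N) (by
    have h : extraIdeal q N ≤ RingHom.ker (extraEv q N) := by
      rw [Ideal.span_le]
      rintro _ ⟨k, rfl⟩
      rcases k with _ | j | k
      · exact map_zero _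
      · have h1 : Ideal.Quotient.mk (Ideal.span (Set.range q)) (q j) = 0 :=
          Ideal.Quotient.eq_zero_iff_mem.2 (Ideal.subset_span ⟨j, rfl⟩)
        exact (extraEv_rename q N (q j)).trans h1
      · change extraEv q N (X (Sum.inr k)) = 0
        rw [extraEv, aeval_X]
        rfl
    exact fun a ha => h ha)

/-- Additional variables which are zero do not change the algebra. -/
noncomputable def extraEquiv : (MvPolynomial (Fin M) R ⧸ Ideal.span (Set.range q)) ≃ₐ[R]
    (MvPolynomial (Fin M ⊕ Fin N) R ⧸ extraIdeal q N) :=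
  AlgEquiv.ofAlgHom (extraTo q N) (extraFrom q N) (by
    apply Ideal.Quotient.algHom_ext
    apply MvPolynomial.algHom_ext
    rintro (i | k)
    · change extraTo q N (extraEv q N (X (Sum.inl i))) = Ideal.Quotient.mk _ (X (Sum.inl i))
      have h : extraEv q N (X (Sum.inl i)) = Ideal.Quotient.mkₐ R _ (X i) := by
        rw [extraEv, aeval_X]
        rfl
      rw [h]
      change (Ideal.Quotient.mkₐ R (extraIdeal q N)) (rename Sum.inl (X i)) = _
      rw [rename_X]
      rfl
    · change extraTo q N (extraEv q N (X (Sum.inr k))) = Ideal.Quotient.mk _ (X (Sum.inr k))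
      have h : extraEv q N (X (Sum.inr k)) = 0 := by
        rw [extraEv, aeval_X]
        rfl
      have h1 : Ideal.Quotient.mk (extraIdeal q N) (extraRels q N (some (Sum.inr k))) = 0 :=
        Ideal.Quotient.eq_zero_iff_mem.2 (Ideal.subset_span ⟨_, rfl⟩)
      rw [h, map_zero]
      exact h1.symm)
    (by
    apply Ideal.Quotient.algHom_ext
    apply MvPolynomial.algHom_ext
    intro i
    exact extraEv_rename q N (X i))

end extra

/-- Every algebra of finite presentation is given by a nonempty finite family of equations of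
degree at most two in at least `N` variables. -/
theorem exists_quadPres_ge (B : Type u) [CommRing B] [Algebra R B]
    [Algebra.FinitePresentation R B] (N : ℕ) :
    ∃ (M r : ℕ) (q : Fin (r + 1) → MvPolynomial (Fin M) R), N ≤ M ∧ QuadPres R B M (r + 1) q := by
  obtain ⟨M, m, q, hq, ⟨e⟩⟩ := exists_quadPres (R := R) B
  obtain ⟨q', hq'⟩ := quadPres_of_index (extraRels q N) (totalDegree_extraRels q N hq)
    (e.trans (extraEquiv q N))
  have h1 : Nat.card (Fin M ⊕ Fin N) = M + N := by
    rw [Nat.card_sum, Nat.card_fin, Nat.card_fin]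
  have h2 : Nat.card (Option (Fin m ⊕ Fin N)) = (m + N) + 1 := by
    rw [Nat.card_eq_fintype_card, Fintype.card_option, Fintype.card_sum, Fintype.card_fin,
      Fintype.card_fin]
  revert q'
  rw [h1, h2]
  intro q' hq'
  exact ⟨M + N, m + N, q', Nat.le_add_left _ _, hq'⟩

/-- **An affine scheme of finite type over a Noetherian ring is a closed subscheme of an affine
space given by equations of degree at most two**. -/
theorem exists_embedding [IsNoetherianRing R] {X : Scheme.{u}} [IsAffine X]
    (f : X ⟶ Spec (CommRingCat.of R)) [LocallyOfFiniteType f] (N : ℕ) :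
    ∃ (M r : ℕ) (q : Fin (r + 1) → MvPolynomial (Fin M) R) (i : X ⟶ Aff R M), N ≤ M ∧
      (∀ j, (q j).totalDegree ≤ 2) ∧ IsClosedImmersion i ∧ i ≫ affStr R M = f ∧
      Set.range i = {x | ∀ j, q j ∈ x.asIdeal} := by
  let φ : CommRingCat.of R ⟶ Γ(X, ⊤) := (Scheme.ΓSpecIso (CommRingCat.of R)).inv ≫ f.appTop
  have hf : X.isoSpec.hom ≫ Spec.map φ = f := by
    have h1 : f ≫ (Spec (CommRingCat.of R)).toSpecΓ = X.toSpecΓ ≫ Spec.map f.appTop :=
      Scheme.toSpecΓ_naturality f
    rw [← cancel_mono (Spec (CommRingCat.of R)).toSpecΓ, h1, Category.assoc]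
    congr 1
    rw [Spec.map_comp, Category.assoc, ← SpecMap_ΓSpecIso_hom, ← Spec.map_comp,
      Iso.hom_inv_id, Spec.map_id, Category.comp_id]
  have hfin : φ.hom.FiniteType := by
    have h1 : f.appTop.hom.FiniteType := (HasRingHomProperty.iff_of_isAffine
      (P := @LocallyOfFiniteType)).1 inferInstance
    have h2 : (Scheme.ΓSpecIso (CommRingCat.of R)).inv.hom.FiniteType :=
      RingHom.FiniteType.of_surjective _
        (Scheme.ΓSpecIso (CommRingCat.of R)).symm.commRingCatIsoToRingEquiv.surjective
    exact h1.comp h2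
  algebraize [φ.hom]
  have hpres : Algebra.FinitePresentation R Γ(X, ⊤) := Algebra.FinitePresentation.of_finiteType.1 inferInstance
  obtain ⟨M, r, q, hM, hq, ⟨e⟩⟩ := exists_quadPres_ge (R := R) Γ(X, ⊤) N
  let π : MvPolynomial (Fin M) R →+* Γ(X, ⊤) :=
    (e.symm.toAlgHom.comp (Ideal.Quotient.mkₐ R (Ideal.span (Set.range q)))).toRingHom
  have hπ : Function.Surjective π := e.symm.surjective.comp Ideal.Quotient.mk_surjective
  have hker : RingHom.ker π = Ideal.span (Set.range q) := by
    ext a
    rw [RingHom.mem_ker]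
    change e.symm (Ideal.Quotient.mk _ a) = 0 ↔ _
    rw [map_eq_zero_iff _ e.symm.injective, Ideal.Quotient.eq_zero_iff_mem]
  refine ⟨M, r, q, X.isoSpec.hom ≫ Spec.map (CommRingCat.ofHom π), hM, hq, ?_, ?_, ?_⟩
  · have := IsClosedImmersion.spec_of_surjective (CommRingCat.ofHom π) hπ
    infer_instance
  · rw [Category.assoc, ← Spec.map_comp, ← CommRingCat.ofHom_comp]
    have h1 : π.comp (C : R →+* MvPolynomial (Fin M) R) = φ.hom := by
      ext c
      exact (e.symm.toAlgHom.comp (Ideal.Quotient.mkₐ R (Ideal.span (Set.range q)))).commutes c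
    rw [h1]
    exact hf
  · have h1 : Set.range (X.isoSpec.hom ≫ Spec.map (CommRingCat.ofHom π)) =
        Set.range (Spec.map (CommRingCat.ofHom π)) := by
      ext y
      constructor
      · rintro ⟨x, rfl⟩
        exact ⟨X.isoSpec.hom x, rfl⟩
      · rintro ⟨x, rfl⟩
        refine ⟨X.isoSpec.inv x, ?_⟩
        rw [Scheme.Hom.comp_apply, ← Scheme.Hom.comp_apply X.isoSpec.inv, Iso.inv_hom_id]
        rfl
    rw [h1]
    have h2 : Set.range (Spec.map (CommRingCat.ofHom π)) =
        PrimeSpectrum.zeroLocus (RingHom.ker π : Set (MvPolynomial (Fin M) R)) :=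
      range_comap_of_surjective _ π hπ
    rw [h2, hker, PrimeSpectrum.zeroLocus_span]
    ext x
    exact mem_zeroLocus_range q x

end Q54.CU
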