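import Mathlib

/-!
# Generalized eigenspaces and exact sequences
-/

set_option autoImplicit false

namespace Q54.CU

variable {K : Type*} [Field K]

section

variable {V W : Type*} [AddCommGroup V] [Module K V] [AddCommGroup W] [Module K W]

/-- `x` is in the generalized eigenspace of `F` for the eigenvalue `1`. -/
def InGen (F : Module.End K V) (x : V) : Prop := ∃ n : ℕ, ((F - 1) ^ n) x = 0

lemma pow_comm_apply {F : Module.End K V} {F' : Module.End K W} {φ : V →ₗ[K] W}
    (h : ∀ x, φ (F x) = F' (φ x)) (n : ℕ) (x : V) : φ (((F - 1) ^ n) x) = ((F' - 1) ^ n) (φ x) := by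
  induction n generalizing x with
  | zero => rfl
  | succ n ih =>
    rw [pow_succ, pow_succ, Module.End.mul_apply, Module.End.mul_apply, ih]
    congr 1
    simp [h]

lemma InGen.map {F : Module.End K V} {F' : Module.End K W} {φ : V →ₗ[K] W}
    (h : ∀ x, φ (F x) = F' (φ x)) {x : V} (hx : InGen F x) : InGen F' (φ x) := by
  obtain ⟨n, hn⟩ := hx
  exact ⟨n, by rw [← pow_comm_apply h, hn, map_zero]⟩

lemma InGen.zero (F : Module.End K V) : InGen F 0 := ⟨0, map_zero _⟩

lemma pow_zero_of_le {F : Module.End K V} {x : V} {n m : ℕ} (h : n ≤ m)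
    (hn : ((F - 1) ^ n) x = 0) : ((F - 1) ^ m) x = 0 := by
  obtain ⟨l, rfl⟩ := Nat.exists_eq_add_of_le' h
  rw [pow_add, Module.End.mul_apply, hn, map_zero]

lemma InGen.sub {F : Module.End K V} {x y : V} (hx : InGen F x) (hy : InGen F y) :
    InGen F (x - y) := by
  obtain ⟨n, hn⟩ := hx
  obtain ⟨m, hm⟩ := hy
  refine ⟨n + m, ?_⟩
  rw [map_sub, pow_zero_of_le (Nat.le_add_right n m) hn, pow_zero_of_le (Nat.le_add_left m n) hm,
    sub_zero]

/-- Elements of the generalized eigenspace which are in the image are images of elements of the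
generalized eigenspace. -/
theorem lift_gen [FiniteDimensional K V] [FiniteDimensional K W] {F : Module.End K V}
    {F' : Module.End K W} {φ : V →ₗ[K] W} (h : ∀ x, φ (F x) = F' (φ x)) {x : V}
    (hx : InGen F' (φ x)) : ∃ y, InGen F y ∧ φ y = φ x := by
  have h1 := LinearMap.isCompl_iSup_ker_pow_iInf_range_pow (F - 1)
  have h2 := LinearMap.isCompl_iSup_ker_pow_iInf_range_pow (F' - 1)
  obtain ⟨y, hy, z, hz, hyz⟩ := Submodule.mem_sup.1 (h1.sup_eq_top ▸ Submodule.mem_top :
    x ∈ (⨆ n, LinearMap.ker ((F - 1) ^ n)) ⊔ ⨅ n, LinearMap.range ((F - 1) ^ n))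
  have hmono : Monotone fun n => LinearMap.ker ((F - 1) ^ n) := by
    intro n m hnm a ha
    exact pow_zero_of_le hnm ha
  have hmono' : Monotone fun n => LinearMap.ker ((F' - 1) ^ n) := by
    intro n m hnm a ha
    exact pow_zero_of_le hnm ha
  have hy' : InGen F y := by
    obtain ⟨n, hn⟩ := (Submodule.mem_iSup_of_directed _ hmono.directed_le).1 hy
    exact ⟨n, hn⟩
  refine ⟨y, hy', ?_⟩
  have hz' : InGen F' (φ z) := by
    have h3 : φ z = φ x - φ y := by
      rw [← hyz, map_add]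
      abel
    rw [h3]
    exact hx.sub (hy'.map h)
  have hz1 : φ z ∈ ⨆ n, LinearMap.ker ((F' - 1) ^ n) := by
    obtain ⟨n, hn⟩ := hz'
    exact Submodule.mem_iSup_of_mem n hn
  have hz2 : φ z ∈ ⨅ n, LinearMap.range ((F' - 1) ^ n) := by
    rw [Submodule.mem_iInf] at hz ⊢
    intro n
    obtain ⟨w, hw⟩ := hz n
    exact ⟨φ w, by rw [← pow_comm_apply h, hw]⟩
  have h4 : φ z = 0 := by
    have h5 : φ z ∈ (⨆ n, LinearMap.ker ((F' - 1) ^ n)) ⊓ ⨅ n, LinearMap.range ((F' - 1) ^ n) :=
      ⟨hz1, hz2⟩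
    rw [h2.inf_eq_bot] at h5
    exact (Submodule.mem_bot K).1 h5
  rw [← hyz, map_add, h4, add_zero]

end

end Q54.CU
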