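import Mathlib

/-!
# Presentations by quadratic equations
-/

set_option autoImplicit false

universe u

namespace Q54.CU

open MvPolynomial

variable {R : Type u} [CommRing R]

section

variable {n : ℕ} (D : ℕ)

/-- The exponents of degree at most `D`. -/
abbrev Expo (n D : ℕ) : Type := {α : Fin n →₀ ℕ // α.degree ≤ D}

instance : Finite (Expo n D) :=
  Set.Finite.to_subtype (Finsupp.finite_of_degree_le (σ := Fin n) D)

/-- The variable which stands for the monomial with exponent `α`. -/
noncomputable def mX (R : Type u) [CommRing R] (D : ℕ) (α : Fin n →₀ ℕ) :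
    MvPolynomial (Expo n D) R :=
  if h : α.degree ≤ D then X ⟨α, h⟩ else 0

lemma mX_of_le {α : Fin n →₀ ℕ} (h : α.degree ≤ D) : mX R D α = X ⟨α, h⟩ := dif_pos h

lemma totalDegree_mX (α : Fin n →₀ ℕ) : (mX R D α).totalDegree ≤ 1 := by
  unfold mX
  split_ifs with h
  · rcases subsingleton_or_nontrivial R with h0 | h0
    · rw [Subsingleton.elim (X (R := R) (⟨α, h⟩ : Expo n D)) 0]
      simp
    · exact (totalDegree_X _).le
  · simp

/-- The linear form which stands for the polynomial `f`. -/
noncomputable def linForm (D : ℕ) (f : MvPolynomial (Fin n) R) : MvPolynomial (Expo n D) R :=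
  ∑ α ∈ f.support, C (coeff α f) * mX R D α

lemma totalDegree_linForm (f : MvPolynomial (Fin n) R) : (linForm D f).totalDegree ≤ 1 := by
  refine (totalDegree_finsetSum _ _).trans (Finset.sup_le fun α _ => ?_)
  refine (totalDegree_mul _ _).trans ?_
  rw [totalDegree_C, zero_add]
  exact totalDegree_mX D α

/-- The relations. -/
noncomputable def rels (D : ℕ) (F : Finset (MvPolynomial (Fin n) R)) :
    Option ((Fin n × Expo n D) ⊕ F) → MvPolynomial (Expo n D) R
  | none => mX R D 0 - 1
  | some (Sum.inl (i, α)) =>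
      if (α.1 + Finsupp.single i 1).degree ≤ D then
        mX R D (α.1 + Finsupp.single i 1) - mX R D (Finsupp.single i 1) * mX R D α.1 else 0
  | some (Sum.inr f) => linForm D f.1

lemma totalDegree_rels (F : Finset (MvPolynomial (Fin n) R)) (k) :
    (rels D F k).totalDegree ≤ 2 := by
  rcases k with _ | ⟨i, α⟩ | f
  · refine (totalDegree_sub _ _).trans (max_le ((totalDegree_mX D 0).trans one_le_two) ?_)
    rw [totalDegree_one]
    exact Nat.zero_le _
  · change (if (α.1 + Finsupp.single i 1).degree ≤ D then
        mX R D (α.1 + Finsupp.single i 1) - mX R D (Finsupp.single i 1) * mX R D α.1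
        else 0).totalDegree ≤ 2
    split_ifs
    · refine (totalDegree_sub _ _).trans (max_le ((totalDegree_mX D _).trans one_le_two) ?_)
      exact (totalDegree_mul _ _).trans (add_le_add (totalDegree_mX D _) (totalDegree_mX D _))
    · simp
  · exact (totalDegree_linForm D f.1).trans one_le_two

/-- The ideal generated by the relations. -/
noncomputable def relIdeal (D : ℕ) (F : Finset (MvPolynomial (Fin n) R)) :
    Ideal (MvPolynomial (Expo n D) R) :=
  Ideal.span (Set.range (rels D F))

lemma rels_mem (F : Finset (MvPolynomial (Fin n) R)) (k) : rels D F k ∈ relIdeal D F :=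
  Ideal.subset_span ⟨k, rfl⟩

/-- The map from the polynomial ring to the quotient. -/
noncomputable def psi (D : ℕ) (F : Finset (MvPolynomial (Fin n) R)) :
    MvPolynomial (Fin n) R →ₐ[R] (MvPolynomial (Expo n D) R ⧸ relIdeal D F) :=
  aeval fun i => Ideal.Quotient.mkₐ R (relIdeal D F) (mX R D (Finsupp.single i 1))

lemma psi_monomial (F : Finset (MvPolynomial (Fin n) R)) (d : ℕ) :
    ∀ α : Fin n →₀ ℕ, α.degree = d → d ≤ D →
      psi D F (monomial α 1) = Ideal.Quotient.mk (relIdeal D F) (mX R D α) := by
  induction d with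
  | zero =>
    intro α hα _
    have h0 : α = 0 := (Finsupp.degree_eq_zero_iff α).1 hα
    subst h0
    have h1 : (monomial (0 : Fin n →₀ ℕ) (1 : R)) = 1 := rfl
    rw [h1, map_one]
    have h2 := rels_mem D F none
    have h3 : Ideal.Quotient.mk (relIdeal D F) (mX R D 0 - 1) = 0 :=
      Ideal.Quotient.eq_zero_iff_mem.2 h2
    rw [map_sub, map_one, sub_eq_zero] at h3
    exact h3.symm
  | succ d ih =>
    intro α hα hd
    have h0 : α ≠ 0 := by
      rintro rfl
      simp at hα
    obtain ⟨i, hi⟩ : ∃ i, α i ≠ 0 := by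
      by_contra h
      push Not at h
      exact h0 (Finsupp.ext h)
    set β : Fin n →₀ ℕ := α - Finsupp.single i 1 with hβ
    have h1 : β + Finsupp.single i 1 = α := by
      rw [hβ]
      apply tsub_add_cancel_of_le
      rw [Finsupp.single_le_iff]
      omega
    have h2 : β.degree = d := by
      have h3 := congrArg Finsupp.degree h1
      rw [map_add, Finsupp.degree_single] at h3
      omega
    have h4 := ih β h2 (by omega)
    have h5 : (monomial α (1 : R)) = monomial β 1 * X i := by
      rw [← h1]
      rw [X, monomial_mul, mul_one]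
    rw [h5, map_mul, h4]
    have h6 := rels_mem D F (some (Sum.inl (i, ⟨β, by omega⟩)))
    have h7 : (β + Finsupp.single i 1).degree ≤ D := by rw [h1]; omega
    simp only [rels, if_pos h7] at h6
    have h8 := Ideal.Quotient.eq_zero_iff_mem.2 h6
    rw [map_sub, sub_eq_zero] at h8
    rw [h1] at h8
    rw [h8, psi, aeval_X, map_mul, mul_comm]
    rfl

lemma psi_eq (F : Finset (MvPolynomial (Fin n) R)) {f : MvPolynomial (Fin n) R}
    (hf : f.totalDegree ≤ D) :
    psi D F f = Ideal.Quotient.mk (relIdeal D F) (linForm D f) := by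
  conv_lhs => rw [f.as_sum]
  rw [map_sum, linForm, map_sum]
  refine Finset.sum_congr rfl fun α hα => ?_
  have h1 : monomial α (coeff α f) = C (coeff α f) * monomial α 1 := by
    rw [C_mul_monomial, mul_one]
  have h2 : α.degree ≤ D := (le_totalDegree hα).trans hf
  rw [h1, map_mul, map_mul, psi_monomial D F _ α rfl h2]
  congr 1
  have := (psi D F).commutes (coeff α f)
  exact this

variable {B : Type u} [CommRing B] [Algebra R B] (φ : MvPolynomial (Fin n) R →ₐ[R] B)

/-- The map from the polynomial ring in the new variables. -/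
noncomputable def chi (D : ℕ) : MvPolynomial (Expo n D) R →ₐ[R] B :=
  aeval fun α => φ (monomial α.1 1)

lemma chi_mX {α : Fin n →₀ ℕ} (h : α.degree ≤ D) : chi φ D (mX R D α) = φ (monomial α 1) := by
  rw [mX_of_le D h, chi, aeval_X]

lemma chi_linForm {f : MvPolynomial (Fin n) R} (hf : f.totalDegree ≤ D) :
    chi φ D (linForm D f) = φ f := by
  rw [linForm, map_sum]
  conv_rhs => rw [f.as_sum, map_sum]
  refine Finset.sum_congr rfl fun α hα => ?_
  have h2 : α.degree ≤ D := (le_totalDegree hα).trans hf
  have h5 : monomial α (coeff α f) = C (coeff α f) * monomial α 1 := by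
    rw [C_mul_monomial, mul_one]
  rw [map_mul, chi_mX D φ h2, h5, map_mul]
  congr 1
  have h3 := (chi φ D).commutes (coeff α f)
  have h4 := φ.commutes (coeff α f)
  exact h3.trans h4.symm

lemma chi_rels (hD : 1 ≤ D) {F : Finset (MvPolynomial (Fin n) R)}
    (hF : ∀ f ∈ F, φ f = 0) (hFD : ∀ f ∈ F, f.totalDegree ≤ D) (k) : chi φ D (rels D F k) = 0 := by
  rcases k with _ | ⟨i, α⟩ | f
  · change chi φ D (mX R D 0 - 1) = 0
    rw [map_sub, chi_mX D φ (by simp), sub_eq_zero]
    exact (map_one φ).trans (map_one (chi φ D)).symm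
  · change chi φ D (if (α.1 + Finsupp.single i 1).degree ≤ D then
        mX R D (α.1 + Finsupp.single i 1) - mX R D (Finsupp.single i 1) * mX R D α.1
        else 0) = 0
    split_ifs with h
    · rw [map_sub, map_mul, chi_mX D φ h, chi_mX D φ (by simpa using hD), chi_mX D φ α.2,
        ← map_mul, monomial_mul, mul_one, add_comm, sub_self]
    · exact map_zero _
  · exact (chi_linForm D φ (hFD _ f.2)).trans (hF _ f.2)

theorem quad_aux (hφ : Function.Surjective φ) {F : Finset (MvPolynomial (Fin n) R)}
    (hF : Ideal.span (F : Set (MvPolynomial (Fin n) R)) = RingHom.ker φ) (hD : 1 ≤ D)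
    (hFD : ∀ f ∈ F, f.totalDegree ≤ D) :
    Nonempty (B ≃ₐ[R] (MvPolynomial (Expo n D) R ⧸ relIdeal D F)) := by
  have h1 : ∀ f ∈ F, φ f = 0 := fun f hf => by
    rw [← RingHom.mem_ker, ← hF]
    exact Ideal.subset_span hf
  let χ : (MvPolynomial (Expo n D) R ⧸ relIdeal D F) →ₐ[R] B :=
    Ideal.Quotient.liftₐ (relIdeal D F) (chi φ D) (by
      intro a ha
      have h2 : relIdeal D F ≤ RingHom.ker (chi φ D) := by
        rw [relIdeal, Ideal.span_le]
        rintro _ ⟨k, rfl⟩
        exact chi_rels D φ hD h1 hFD k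
      exact h2 ha)
  have hpsi : ∀ a, φ a = 0 → psi D F a = 0 := by
    intro a ha
    have h2 : RingHom.ker φ ≤ RingHom.ker (psi D F) := by
      rw [← hF, Ideal.span_le]
      intro f hf
      change psi D F f = 0
      rw [psi_eq D F (hFD f hf), Ideal.Quotient.eq_zero_iff_mem]
      exact rels_mem D F (some (Sum.inr ⟨f, hf⟩))
    exact h2 ha
  have h3 : ∀ a, χ (psi D F a) = φ a := by
    intro a
    have h4 : χ.comp (psi D F) = φ := by
      apply MvPolynomial.algHom_ext
      intro i
      rw [AlgHom.comp_apply, psi, aeval_X]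
      change chi φ D _ = _
      rw [chi_mX D φ (by simpa using hD)]
      rfl
    exact DFunLike.congr_fun h4 a
  refine ⟨(AlgEquiv.ofBijective χ ⟨?_, ?_⟩).symm⟩
  · have h5 : Function.Surjective (psi D F) := by
      intro b
      obtain ⟨b, rfl⟩ := Ideal.Quotient.mk_surjective b
      have h6 : (Ideal.Quotient.mkₐ R (relIdeal D F)).range ≤ (psi D F).range := by
        rintro _ ⟨c, rfl⟩
        induction c using MvPolynomial.induction_on with
        | C a => exact ⟨C a, (psi D F).commutes a⟩
        | add p q hp hq =>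
          have := add_mem hp hq
          rw [← map_add] at this
          exact this
        | mul_X p α hp =>
          have h7 : Ideal.Quotient.mkₐ R (relIdeal D F) (X α) ∈ (psi D F).range :=
            ⟨monomial α.1 1, by
              rw [← mX_of_le D α.2]
              exact psi_monomial D F _ α.1 rfl α.2⟩
          have := mul_mem hp h7
          exact (congrArg (· ∈ (psi D F).range)
            (map_mul (Ideal.Quotient.mkₐ R (relIdeal D F)) p (X α))).mpr this
      exact h6 ⟨b, rfl⟩
    intro a b hab
    obtain ⟨a, rfl⟩ := h5 a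
    obtain ⟨b, rfl⟩ := h5 b
    rw [h3, h3] at hab
    have h8 := hpsi (a - b) (by rw [map_sub, hab, sub_self])
    rwa [map_sub, sub_eq_zero] at h8
  · intro b
    obtain ⟨a, rfl⟩ := hφ b
    exact ⟨psi D F a, h3 a⟩

end

/-- The algebra `B` is given by finitely many equations of degree at most two. -/
def QuadPres (R : Type u) [CommRing R] (B : Type u) [CommRing B] [Algebra R B] (M m : ℕ)
    (q : Fin m → MvPolynomial (Fin M) R) : Prop :=
  (∀ j, (q j).totalDegree ≤ 2) ∧
    Nonempty (B ≃ₐ[R] (MvPolynomial (Fin M) R ⧸ Ideal.span (Set.range q)))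

/-- Reindexing of a presentation. -/
theorem quadPres_of_index {B : Type u} [CommRing B] [Algebra R B] {ι : Type} {κ : Type*} [Finite ι]
    [Finite κ] (r : κ → MvPolynomial ι R) (hr : ∀ k, (r k).totalDegree ≤ 2)
    (e : B ≃ₐ[R] (MvPolynomial ι R ⧸ Ideal.span (Set.range r))) :
    ∃ q, QuadPres R B (Nat.card ι) (Nat.card κ) q := by
  classical
  let a : ι ≃ Fin (Nat.card ι) := Finite.equivFin ι
  let b : κ ≃ Fin (Nat.card κ) := Finite.equivFin κ
  refine ⟨fun j => rename a (r (b.symm j)), fun j => ?_, ⟨e.trans ?_⟩⟩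
  · exact (totalDegree_rename_le _ _).trans (hr _)
  · refine Ideal.quotientEquivAlg _ _ (renameEquiv R a) ?_
    rw [Ideal.map_span, ← Set.range_comp]
    congr 1
    ext x
    constructor
    · rintro ⟨j, rfl⟩
      exact ⟨b.symm j, rfl⟩
    · rintro ⟨k, rfl⟩
      exact ⟨b k, by simp⟩

/-- **Every algebra of finite presentation is given by finitely many equations of degree at most
two**. -/
theorem exists_quadPres (B : Type u) [CommRing B] [Algebra R B]
    [Algebra.FinitePresentation R B] :
    ∃ M m q, QuadPres R B M m q := by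
  obtain ⟨n, φ, hφ, hfg⟩ := Algebra.FinitePresentation.out (R := R) (A := B)
  obtain ⟨F, hF⟩ := hfg
  set D := max 1 (F.sup fun f => f.totalDegree) with hD
  have h1 : ∀ f ∈ F, f.totalDegree ≤ D := fun f hf =>
    (Finset.le_sup (f := fun f : MvPolynomial (Fin n) R => f.totalDegree) hf).trans
      (le_max_right _ _)
  obtain ⟨e⟩ := quad_aux D φ hφ (F := F) hF (le_max_left _ _) h1
  have h2 : ∀ k, (rels D F k).totalDegree ≤ 2 := totalDegree_rels D F
  have h3 := quadPres_of_index (rels D F) h2 e
  exact ⟨_, _, h3⟩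

end Q54.CU
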