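import Pool.Agent.Q54.CU.Hyp
import Pool.Agent.Q54.CU.Quad

/-!
# Affine bundles, and the hypersurfaces `∑ λ_j q_j(x) = t` as schemes
-/

set_option autoImplicit false

universe u

namespace Q54.CU

open MvPolynomial CategoryTheory AlgebraicGeometry

/-- The morphism `p : E ⟶ B` is an affine bundle of rank `r`: each point of `B` has an open affine
neighbourhood `Spec A` whose preimage in `E` is isomorphic over `Spec A` to the affine space
`Spec A[t_1, …, t_r]`. -/
def IsAffineBundle (r : ℕ) {E B : Scheme.{u}} (p : E ⟶ B) : Prop :=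
  ∀ b : B, ∃ (A : CommRingCat.{u}) (j : Spec A ⟶ B)
    (h : Spec (CommRingCat.of (MvPolynomial (Fin r) A)) ⟶ E),
    IsOpenImmersion j ∧ b ∈ Set.range j ∧
      IsPullback h (Spec.map (CommRingCat.ofHom (C : A →+* MvPolynomial (Fin r) A))) p j

variable (R : Type u) [CommRing R] (M : ℕ)

/-- The affine space of dimension `M` over `R`. -/
noncomputable abbrev Aff : Scheme.{u} := Spec (CommRingCat.of (MvPolynomial (Fin M) R))

/-- The structure morphism of the affine space. -/
noncomputable abbrev affStr : Aff R M ⟶ Spec (CommRingCat.of R) :=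
  Spec.map (CommRingCat.ofHom C)

variable {R M} {r : ℕ} (q : Fin (r + 1) → MvPolynomial (Fin M) R) (t : R)

/-- The hypersurface `∑ λ_j q_j(x) = t` in the affine space of dimension `M + r + 1` over `R`. -/
noncomputable abbrev HypSch : Scheme.{u} := Spec (CommRingCat.of (HypRing q t))

/-- The projection of the hypersurface to the affine space with coordinates `x`. -/
noncomputable abbrev hypProj : HypSch q t ⟶ Aff R M :=
  Spec.map (CommRingCat.ofHom (toHyp q t))

/-- The complement of the common zero locus of the polynomials `q_j`. -/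
noncomputable def compl : (Aff R M).Opens :=
  ⟨(PrimeSpectrum.zeroLocus (Set.range q))ᶜ, (PrimeSpectrum.isClosed_zeroLocus _).isOpen_compl⟩

lemma mem_zeroLocus_range (x : PrimeSpectrum (MvPolynomial (Fin M) R)) :
    x ∈ PrimeSpectrum.zeroLocus (Set.range q) ↔ ∀ j, q j ∈ x.asIdeal := by
  rw [PrimeSpectrum.mem_zeroLocus, Set.range_subset_iff]
  rfl

lemma mem_compl {x : Aff R M} : x ∈ compl q ↔ ∃ j, q j ∉ x.asIdeal :=
  (not_congr (mem_zeroLocus_range q x)).trans not_forall

/-- The hypersurface `∑ λ_j q_j(x) = 1` does not meet the common zero locus. -/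
lemma range_hypProj_one : Set.range (hypProj q 1) ⊆ Set.range (compl q).ι := by
  rw [Scheme.Opens.range_ι]
  rintro _ ⟨y, rfl⟩
  change _ ∈ compl q
  rw [mem_compl]
  by_contra h
  push Not at h
  have h1 := sum_lam q (1 : R)
  have h2 : (∑ j, lam q 1 j * toHyp q 1 (q j)) ∈ y.asIdeal :=
    Ideal.sum_mem _ fun j _ => Ideal.mul_mem_left _ _ (h j)
  rw [h1, C_1, map_one] at h2
  exact y.2.ne_top ((Ideal.eq_top_iff_one _).2 h2)

section chart

variable (j : Fin (r + 1))

/-- The open set `q_j ≠ 0`. -/
noncomputable abbrev chartRing : Type u := Localization.Away (q j)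

/-- The inclusion of the open set `q_j ≠ 0`. -/
noncomputable abbrev chartInc : Spec (CommRingCat.of (chartRing q j)) ⟶ Aff R M :=
  Spec.map (CommRingCat.ofHom (algebraMap (MvPolynomial (Fin M) R) (chartRing q j)))

instance : IsOpenImmersion (chartInc q j) :=
  Scheme.isOpenImmersion_SpecMap_localizationAway
    (R := CommRingCat.of (MvPolynomial (Fin M) R)) (q j)

lemma mem_range_chartInc (x : Aff R M) : x ∈ Set.range (chartInc q j) ↔ q j ∉ x.asIdeal := by
  have h := PrimeSpectrum.localization_away_comap_range (chartRing q j) (q j)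
  have h1 : x ∈ Set.range (chartInc q j) ↔
      x ∈ Set.range (PrimeSpectrum.comap (algebraMap (MvPolynomial (Fin M) R) (chartRing q j))) :=
    Iff.rfl
  rw [h1, h]
  rfl

lemma range_chartInc_sub : Set.range (chartInc q j) ⊆ Set.range (compl q).ι := by
  rw [Scheme.Opens.range_ι]
  intro x hx
  exact (mem_compl q).2 ⟨j, (mem_range_chartInc q j x).1 hx⟩

/-- The chart of the hypersurface over `q_j ≠ 0`. -/
theorem exists_chart : ∃ h : Spec (CommRingCat.of (MvPolynomial (Fin r) (chartRing q j))) ⟶
    HypSch q t, IsPullback h (Spec.map (CommRingCat.ofHom C)) (hypProj q t) (chartInc q j) := by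
  obtain ⟨u, hu⟩ := isUnit_iff_exists_inv.1
    (IsLocalization.Away.algebraMap_isUnit (S := chartRing q j) (q j))
  exact ⟨_, isPullback_SpecMap_of_isPushout _ _ _ _ (isPushout_chart q t j (chartRing q j) u hu)⟩

end chart

/-- **The hypersurface is an affine bundle over the complement of the common zero locus**. -/
theorem isAffineBundle_of {E' : Scheme.{u}} {i : E' ⟶ HypSch q t} {g : E' ⟶ compl q}
    (hg : IsPullback i g (hypProj q t) (compl q).ι) : IsAffineBundle r g := by
  intro b
  have hb : (compl q).ι b ∈ compl q := b.2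
  obtain ⟨j, hj⟩ := (mem_compl q).1 hb
  obtain ⟨h, hh⟩ := exists_chart q t j
  let k : Spec (CommRingCat.of (chartRing q j)) ⟶ (compl q : Scheme) :=
    IsOpenImmersion.lift (compl q).ι (chartInc q j) (range_chartInc_sub q j)
  have hk : k ≫ (compl q).ι = chartInc q j := IsOpenImmersion.lift_fac _ _ _
  have hcomm : h ≫ hypProj q t =
      (Spec.map (CommRingCat.ofHom C) ≫ k) ≫ (compl q).ι := by
    rw [Category.assoc, hk]
    exact hh.w
  let l : Spec (CommRingCat.of (MvPolynomial (Fin r) (chartRing q j))) ⟶ E' := hg.lift h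
    (Spec.map (CommRingCat.ofHom C) ≫ k) hcomm
  have hl1 : l ≫ i = h := hg.lift_fst _ _ _
  have hl2 : l ≫ g = Spec.map (CommRingCat.ofHom C) ≫ k := hg.lift_snd _ _ _
  refine ⟨CommRingCat.of (chartRing q j), k, l, ?_, ?_, ?_⟩
  · have : IsOpenImmersion (k ≫ (compl q).ι) := by
      rw [hk]
      infer_instance
    exact IsOpenImmersion.of_comp k (compl q).ι
  · have h1 : (compl q).ι b ∈ Set.range (chartInc q j) := (mem_range_chartInc q j _).2 hj
    obtain ⟨y, hy⟩ := h1
    refine ⟨y, (compl q).ι.isOpenEmbedding.injective ?_⟩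
    rw [← hy, ← hk]
    rfl
  · have h3 : IsPullback (l ≫ i) (Spec.map (CommRingCat.ofHom C)) (hypProj q t)
        (k ≫ (compl q).ι) := by
      rw [hl1, hk]
      exact hh
    have h4 := h3.flip
    exact (IsPullback.of_right (h₁₁ := l) (h₁₂ := i) (h₂₁ := k) (h₂₂ := (compl q).ι)
      (v₁₁ := Spec.map (CommRingCat.ofHom C)) (v₁₂ := g) (v₁₃ := hypProj q t) h3 hl2 hg)

end Q54.CU
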