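import Mathlib

/-!
# The hypersurfaces `∑ λ_j q_j(x) = t`: local structure over the complement of `V(q)`
-/

set_option autoImplicit false

universe u

namespace Q54.CU

open MvPolynomial CategoryTheory

variable {R : Type u} [CommRing R] {M r : ℕ}

/-- The polynomial `∑ λ_j q_j(x) - t` in the variables `x_1, …, x_M` and `λ_0, …, λ_r`. -/
noncomputable def hypPoly (q : Fin (r + 1) → MvPolynomial (Fin M) R) (t : R) :
    MvPolynomial (Fin M ⊕ Fin (r + 1)) R :=
  ∑ j, X (Sum.inr j) * rename Sum.inl (q j) - C t

/-- The coordinate ring of the hypersurface `∑ λ_j q_j(x) = t` in the affine space of dimension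
`M + r + 1` over `R`. -/
abbrev HypRing (q : Fin (r + 1) → MvPolynomial (Fin M) R) (t : R) : Type u :=
  MvPolynomial (Fin M ⊕ Fin (r + 1)) R ⧸ Ideal.span {hypPoly q t}

variable (q : Fin (r + 1) → MvPolynomial (Fin M) R) (t : R)

/-- The projection to the space with coordinates `x`, on coordinate rings. -/
noncomputable def toHyp : MvPolynomial (Fin M) R →+* HypRing q t :=
  (Ideal.Quotient.mk _).comp (rename (R := R) (Sum.inl : Fin M → Fin M ⊕ Fin (r + 1))).toRingHom

/-- The function `λ_j`. -/
noncomputable def lam (j : Fin (r + 1)) : HypRing q t := Ideal.Quotient.mk _ (X (Sum.inr j))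

lemma toHyp_apply (a : MvPolynomial (Fin M) R) :
    toHyp q t a = Ideal.Quotient.mk _ (rename Sum.inl a) := rfl

lemma sum_lam : ∑ j, lam q t j * toHyp q t (q j) = toHyp q t (C t) := by
  have h1 : Ideal.Quotient.mk (Ideal.span {hypPoly q t}) (hypPoly q t) = 0 :=
    Ideal.Quotient.eq_zero_iff_mem.2 (Ideal.subset_span rfl)
  have h2 : hypPoly q t = ∑ j, X (Sum.inr j) * rename Sum.inl (q j) - C t := rfl
  have h3 : Ideal.Quotient.mk (Ideal.span {hypPoly q t})
      (∑ j, X (Sum.inr j) * rename Sum.inl (q j) - C t) = 0 := by
    rw [← h2]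
    exact h1
  rw [map_sub, map_sum, sub_eq_zero] at h3
  rw [toHyp_apply, rename_C, ← h3]
  exact Finset.sum_congr rfl fun j _ => (map_mul _ _ _).symm

section lift

variable {T : Type u} [CommRing T] (f : MvPolynomial (Fin M) R →+* T) (l : Fin (r + 1) → T)

/-- Evaluation. -/
noncomputable def hypEval : MvPolynomial (Fin M ⊕ Fin (r + 1)) R →+* T :=
  eval₂Hom (f.comp C) (Sum.elim (fun i => f (X i)) l)

lemma hypEval_rename (b : MvPolynomial (Fin M) R) : hypEval f l (rename Sum.inl b) = f b := by
  rw [hypEval, coe_eval₂Hom, eval₂_rename]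
  have h1 : (eval₂Hom (f.comp C) (fun i => f (X i))) = f := by
    apply MvPolynomial.ringHom_ext
    · intro c
      simp
    · intro i
      simp
  exact DFunLike.congr_fun h1 b

lemma hypEval_inr (j : Fin (r + 1)) : hypEval (M := M) f l (X (Sum.inr j)) = l j := by
  simp [hypEval]

variable {q t}

lemma hypEval_eq_zero (h : ∑ j, l j * f (q j) = f (C t)) :
    ∀ a ∈ Ideal.span {hypPoly q t}, hypEval f l a = 0 := by
  have h2 : Ideal.span {hypPoly q t} ≤ RingHom.ker (hypEval f l) := by
    rw [Ideal.span_le, Set.singleton_subset_iff]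
    change hypEval f l (hypPoly q t) = 0
    rw [hypPoly, map_sub, map_sum, sub_eq_zero]
    have h3 : hypEval f l (C t) = f (C t) := by
      simp [hypEval]
    rw [h3, ← h]
    refine Finset.sum_congr rfl fun j _ => ?_
    rw [map_mul, hypEval_rename, hypEval_inr]
  exact fun a ha => h2 ha

variable (q t) in
/-- Ring homomorphisms from the coordinate ring. -/
noncomputable def hypLift (h : ∑ j, l j * f (q j) = f (C t)) : HypRing q t →+* T :=
  Ideal.Quotient.lift (Ideal.span {hypPoly q t}) (hypEval f l) (hypEval_eq_zero f l h)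

variable {f l} (h : ∑ j, l j * f (q j) = f (C t))

lemma hypLift_lam (j : Fin (r + 1)) : hypLift q t f l h (lam q t j) = l j := by
  rw [hypLift, lam, Ideal.Quotient.lift_mk, hypEval_inr]

lemma hypLift_toHyp (a) : hypLift q t f l h (toHyp q t a) = f a := by
  rw [hypLift, toHyp_apply, Ideal.Quotient.lift_mk, hypEval_rename]

/-- Two homomorphisms from the coordinate ring are equal if they agree on functions of `x` and
on the functions `λ_j`. -/
lemma hyp_hom_ext {g g' : HypRing q t →+* T} (h1 : g.comp (toHyp q t) = g'.comp (toHyp q t))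
    (h2 : ∀ j, g (lam q t j) = g' (lam q t j)) : g = g' := by
  apply Ideal.Quotient.ringHom_ext
  apply MvPolynomial.ringHom_ext
  · intro c
    have := DFunLike.congr_fun h1 (C c)
    simp only [RingHom.comp_apply, toHyp_apply, rename_C] at this
    exact this
  · rintro (i | j)
    · have := DFunLike.congr_fun h1 (X i)
      simp only [RingHom.comp_apply, toHyp_apply, rename_X] at this
      exact this
    · exact h2 j

end lift

section chart

variable (j : Fin (r + 1)) (L : Type u) [CommRing L] [Algebra (MvPolynomial (Fin M) R) L]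
  (u : L) (hu : algebraMap (MvPolynomial (Fin M) R) L (q j) * u = 1)

/-- The functions `λ_i` in the chart `q_j ≠ 0`. -/
noncomputable def chartLam : Fin (r + 1) → MvPolynomial (Fin r) L :=
  j.insertNth (C u * (C (algebraMap (MvPolynomial (Fin M) R) L (C t)) -
    ∑ i : Fin r, X i * C (algebraMap (MvPolynomial (Fin M) R) L (q (j.succAbove i)))))
    (fun i => X i)

lemma chartLam_same : chartLam q t j L u j =
    C u * (C (algebraMap (MvPolynomial (Fin M) R) L (C t)) -
    ∑ i : Fin r, X i * C (algebraMap (MvPolynomial (Fin M) R) L (q (j.succAbove i)))) := by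
  rw [chartLam, Fin.insertNth_apply_same]

lemma chartLam_above (i : Fin r) : chartLam q t j L u (j.succAbove i) = X i := by
  rw [chartLam, Fin.insertNth_apply_succAbove]

include hu in
lemma chart_sum : ∑ i, chartLam q t j L u i * (C.comp (algebraMap (MvPolynomial (Fin M) R) L)) (q i) =
    (C.comp (algebraMap (MvPolynomial (Fin M) R) L)) (C t) := by
  rw [Fin.sum_univ_succAbove _ j, chartLam_same]
  simp only [chartLam_above, RingHom.comp_apply]
  have h1 : (C u : MvPolynomial (Fin r) L) *
      C (algebraMap (MvPolynomial (Fin M) R) L (q j)) = 1 := by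
    rw [← C_mul, mul_comm, hu, C_1]
  linear_combination (C (algebraMap (MvPolynomial (Fin M) R) L (C t)) -
    ∑ i : Fin r, X i * C (algebraMap (MvPolynomial (Fin M) R) L (q (j.succAbove i)))) * h1

/-- The chart over `q_j ≠ 0`. -/
noncomputable def chart : HypRing q t →+* MvPolynomial (Fin r) L :=
  hypLift q t (C.comp (algebraMap (MvPolynomial (Fin M) R) L)) (chartLam q t j L u)
    (chart_sum q t j L u hu)

lemma chart_toHyp (a) : chart q t j L u hu (toHyp q t a) =
    C (algebraMap (MvPolynomial (Fin M) R) L a) := by
  rw [chart, hypLift_toHyp]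
  rfl

lemma chart_lam (i) : chart q t j L u hu (lam q t i) = chartLam q t j L u i := by
  rw [chart, hypLift_lam]

section desc

variable {T : Type u} [CommRing T] (f : HypRing q t →+* T) (g : L →+* T)

/-- The map from the chart. -/
noncomputable def desc : MvPolynomial (Fin r) L →+* T :=
  eval₂Hom g fun i => f (lam q t (j.succAbove i))

lemma desc_C (a : L) : desc q t j L f g (C a) = g a := by
  simp [desc]

lemma desc_X (i : Fin r) : desc q t j L f g (X i) = f (lam q t (j.succAbove i)) := by
  simp [desc]

include hu in
lemma desc_comp (hc : ∀ a, f (toHyp q t a) = g (algebraMap (MvPolynomial (Fin M) R) L a)) :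
    (desc q t j L f g).comp (chart q t j L u hu) = f := by
  apply hyp_hom_ext
  · apply RingHom.ext
    intro a
    rw [RingHom.comp_apply, RingHom.comp_apply, RingHom.comp_apply, chart_toHyp, desc_C, hc]
  · intro i
    rw [RingHom.comp_apply, chart_lam]
    rcases Fin.eq_self_or_eq_succAbove j i with rfl | ⟨i, rfl⟩
    · rw [chartLam_same, map_mul, map_sub, map_sum, desc_C, desc_C]
      have h1 := congrArg f (sum_lam q t)
      rw [Fin.sum_univ_succAbove _ i, map_add, map_mul, hc, hc, map_sum] at h1
      have h2 : g (algebraMap _ L (q i)) * g u = 1 := by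
        rw [← map_mul, hu, map_one]
      have h3 : ∀ k, desc q t i L f g (X k * C (algebraMap (MvPolynomial (Fin M) R) L
          (q (i.succAbove k)))) = f (lam q t (i.succAbove k) * toHyp q t (q (i.succAbove k))) := by
        intro k
        rw [map_mul, desc_X, desc_C, map_mul, hc]
      simp only [h3]
      rw [← h1]
      linear_combination (f (lam q t i)) * h2
    · rw [chartLam_above, desc_X]

end desc

include hu in
/-- **The hypersurface is an affine space over the open set `q_j ≠ 0`**. -/
theorem isPushout_chart :
    IsPushout (CommRingCat.ofHom (toHyp q t))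
      (CommRingCat.ofHom (algebraMap (MvPolynomial (Fin M) R) L))
      (CommRingCat.ofHom (chart q t j L u hu))
      (CommRingCat.ofHom (C : L →+* MvPolynomial (Fin r) L)) := by
  refine ⟨⟨?_⟩, ⟨?_⟩⟩
  · apply CommRingCat.hom_ext
    apply RingHom.ext
    intro a
    exact chart_toHyp q t j L u hu a
  · refine Limits.PushoutCocone.IsColimit.mk _
      (fun s => CommRingCat.ofHom (desc q t j L s.inl.hom s.inr.hom)) ?_ ?_ ?_
    · intro s
      apply CommRingCat.hom_ext
      exact desc_comp q t j L u hu s.inl.hom s.inr.hom fun a =>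
        DFunLike.congr_fun (congrArg CommRingCat.Hom.hom s.condition) a
    · intro s
      apply CommRingCat.hom_ext
      apply RingHom.ext
      intro a
      exact desc_C q t j L s.inl.hom s.inr.hom a
    · intro s m h1 h2
      apply CommRingCat.hom_ext
      apply MvPolynomial.ringHom_ext
      · intro a
        have := DFunLike.congr_fun (congrArg CommRingCat.Hom.hom h2) a
        rw [CommRingCat.hom_ofHom, desc_C]
        exact this
      · intro i
        have := DFunLike.congr_fun (congrArg CommRingCat.Hom.hom h1) (lam q t (j.succAbove i))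
        rw [CommRingCat.hom_ofHom, desc_X, ← this]
        change m.hom (X i) = m.hom (chart q t j L u hu (lam q t (j.succAbove i)))
        rw [chart_lam, chartLam_above]

end chart

/-- The degree of the hypersurface is at most three. -/
lemma totalDegree_hypPoly (hq : ∀ j, (q j).totalDegree ≤ 2) : (hypPoly q t).totalDegree ≤ 3 := by
  refine (totalDegree_sub _ _).trans (max_le ?_ ?_)
  · refine (totalDegree_finsetSum _ _).trans (Finset.sup_le fun j _ => ?_)
    refine (totalDegree_mul _ _).trans ?_
    have h1 : (X (Sum.inr j) : MvPolynomial (Fin M ⊕ Fin (r + 1)) R).totalDegree ≤ 1 := by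
      rcases subsingleton_or_nontrivial R with h0 | h0
      · rw [Subsingleton.elim (X (R := R) (Sum.inr j : Fin M ⊕ Fin (r + 1))) 0]
        simp
      · exact (totalDegree_X _).le
    have h2 := (totalDegree_rename_le (Sum.inl : Fin M → Fin M ⊕ Fin (r + 1)) (q j)).trans (hq j)
    omega
  · rw [totalDegree_C]
    exact Nat.zero_le _

end Q54.CU
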