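import Pool.Agent.Q54.CU.Reg
import Pool.Agent.Q54.CU.FG

/-!
# Finite generation of `K`-groups
-/

set_option autoImplicit false

namespace Q54.CU

open MvPolynomial CategoryTheory AlgebraicGeometry TopologicalSpace

/-- The schemes over `ℤ`. -/
abbrev SchZ : Type 1 := Over (Spec (CommRingCat.of ℤ))

/-- The groups `G n X` have the properties of the groups `K'_n(X)`, the Quillen `K`-groups of the
coherent sheaves on the schemes `X` of finite type over `ℤ`: the localization sequence, homotopy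
invariance for affine bundles, and finite generation of the `K`-groups of `ℤ`. -/
structure IsKPrime (G : ℕ → SchZ → Type) [∀ n X, AddCommGroup (G n X)] : Prop where
  localization : ∀ {Z X U : SchZ} (i : Z ⟶ X) (j : U ⟶ X), IsFT X → IsDecomp i j →
    ∃ (a : ∀ n, G n Z →+ G n X) (b : ∀ n, G n X →+ G n U) (c : ∀ n, G (n + 1) U →+ G n Z),
      (∀ n, Function.Exact (a n) (b n)) ∧ (∀ n, Function.Exact (b (n + 1)) (c n)) ∧
        (∀ n, Function.Exact (c n) (a n)) ∧ Function.Surjective (b 0)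
  homotopy : ∀ {E B : SchZ} (r : ℕ) (p : E ⟶ B), IsFT E → IsFT B → IsAffineBundle r p.left →
    ∀ n, Nonempty (G n B ≃+ G n E)
  integers : ∀ n, AddGroup.FG (G n (Over.mk (𝟙 _)))

variable {G : ℕ → SchZ → Type} [∀ n X, AddCommGroup (G n X)]

/-- All groups in degrees at most `N` are finitely generated. -/
def FGUpTo (G : ℕ → SchZ → Type) [∀ n X, AddCommGroup (G n X)] (N : ℕ) (X : SchZ) : Prop :=
  ∀ n ≤ N, AddGroup.FG (G n X)

lemma isFT_base : IsFT (Over.mk (𝟙 (Spec (CommRingCat.of ℤ))) : SchZ) :=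
  ⟨(inferInstance : LocallyOfFiniteType (𝟙 (Spec (CommRingCat.of ℤ)))),
    (inferInstance : QuasiCompact (𝟙 (Spec (CommRingCat.of ℤ))))⟩

lemma IsKPrime.aff (hG : IsKPrime G) (M n : ℕ) : AddGroup.FG (G n (affO ℤ M)) := by
  let p : affO ℤ M ⟶ (Over.mk (𝟙 _) : SchZ) := Over.homMk (affStr ℤ M) (by
    change affStr ℤ M ≫ 𝟙 _ = affStr ℤ M
    rw [Category.comp_id])
  obtain ⟨e⟩ := hG.homotopy M p isFT_affO isFT_base (affStr_bundle ℤ M) n
  exact fg_of_equiv e (hG.integers n)

/-- The step from the hypersurfaces to all schemes. -/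
theorem kprime_step (hG : IsKPrime G) (N : ℕ)
    (h : ∀ (M r : ℕ) (q : Fin (r + 1) → MvPolynomial (Fin M) ℤ), (∀ j, (q j).totalDegree ≤ 2) →
      FGUpTo G (N + 1) (hypO q 1)) (X : SchZ) (hX : IsFT X) : FGUpTo G N X := by
  refine devissage (FGUpTo G N) ?_ ?_ X hX
  · intro Z X U i j hX hd hZ hU n hn
    obtain ⟨a, b, c, h1, -, -, -⟩ := hG.localization i j hX hd
    exact fg_of_exact (h1 n) (hZ n hn) (hU n hn)
  · intro X hX ha n hn
    obtain ⟨M, r, q, i, -, hq, hd⟩ := exists_decomp X hX ha 0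
    obtain ⟨a, b, c, -, -, h3, -⟩ := hG.localization i (cplInc q) isFT_affO hd
    obtain ⟨e⟩ := hG.homotopy r (hypO_to q) (isFT_hypO q 1) (isFT_cplO q) (hypO_to_bundle q) (n + 1)
    exact fg_of_exact (h3 n) (fg_of_equiv e.symm (h M r q hq (n + 1) (by omega))) (hG.aff M n)

end Q54.CU
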