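import Pool.Agent.Q54.CU.RgDefs

/-!
# Regulators and smooth affine cubic hypersurfaces
-/

set_option autoImplicit false

universe u v w x

namespace Q54.CU

open MvPolynomial CategoryTheory AlgebraicGeometry TopologicalSpace

variable {k : Type u} [Field k] {𝓜 : Type w} [Category.{v} 𝓜] [Abelian 𝓜] {I : 𝓜}
  {D : RegData.{u, v, w, x} k 𝓜 I}

lemma isVar_pt : IsVar (pt k) :=
  ⟨⟨(inferInstance : LocallyOfFiniteType (𝟙 (Spec (CommRingCat.of k)))),
    (inferInstance : QuasiCompact (𝟙 (Spec (CommRingCat.of k))))⟩,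
    (inferInstance : IsSeparated (𝟙 (Spec (CommRingCat.of k))))⟩

lemma IsVar.of_affine {X : SchO k} (hX : IsFT X) (ha : IsAffine X.left) : IsVar X :=
  ⟨hX, inferInstance⟩

lemma isVar_affO {M : ℕ} : IsVar (affO k M) :=
  ⟨isFT_affO, (inferInstance : IsSeparated (affStr k M))⟩

lemma isVar_hypO {M r : ℕ} (q : Fin (r + 1) → MvPolynomial (Fin M) k) (t : k) :
    IsVar (hypO q t) :=
  .of_affine (isFT_hypO q t) (inferInstance : IsAffine (HypSch q t))

lemma isVar_cplO {M r : ℕ} (q : Fin (r + 1) → MvPolynomial (Fin M) k) : IsVar (cplO q) :=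
  ⟨isFT_cplO q, (inferInstance : IsSeparated ((compl q).ι ≫ affStr k M))⟩

/-- The structure morphism of the affine space. -/
noncomputable def affTo (k : Type u) [Field k] (M : ℕ) : affO k M ⟶ pt k :=
  Over.homMk (affStr k M) (by
    change affStr k M ≫ 𝟙 _ = affStr k M
    rw [Category.comp_id])

lemma IsRegTheory.chow_aff (hD : IsRegTheory D) {M : ℕ} {n : ℤ} (hn : n < M) :
    Subsingleton (D.A n 0 (affO k M)) := by
  obtain ⟨ε, -, -⟩ := hD.homotopy M (affTo k M) isVar_affO isVar_pt (affStr_bundle k M)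
  have h1 := hD.chow_pt (n - M) (by omega)
  have h2 := (ε (n - M) 0).symm.injective.subsingleton
  rwa [sub_add_cancel] at h2

lemma IsRegTheory.hom_aff (hD : IsRegTheory D) {M : ℕ} {n s : ℤ} (hn : 2 * n + s ≠ 2 * M) :
    Limits.IsZero (D.H n s (affO k M)) := by
  obtain ⟨-, e, -⟩ := hD.homotopy M (affTo k M) isVar_affO isVar_pt (affStr_bundle k M)
  have h1 := hD.hom_pt (n - M) s (by omega)
  have h2 := h1.of_iso (e (n - M) s).symm
  rwa [sub_add_cancel] at h2

/-- The regulators for a closed subscheme of the affine space and for its complement. -/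
theorem surj_compl_iff (hD : IsRegTheory D) {M : ℕ} {Z U : SchO k} (i : Z ⟶ affO k M)
    (j : U ⟶ affO k M) (hd : IsDecomp i j) {n : ℤ} (hn : n < M) :
    Function.Surjective (D.c n 1 U) ↔ Function.Surjective (D.c n 0 Z) := by
  obtain ⟨⟨α, β, δ⟩, ⟨a, b, d⟩, h1, h2, ⟨-, -, h5⟩⟩ := hD.localization i j isVar_affO hd
  have h5 : ∀ y : D.A n 1 U, D.c n 0 Z (δ n 0 y) = D.c n 1 U y ≫ d n 0 := fun y => h5 n 0 y
  have hz1 : Limits.IsZero (D.H n (0 + 1) (affO k M)) := hD.hom_aff (by omega)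
  have hz0 : Limits.IsZero (D.H n 0 (affO k M)) := hD.hom_aff (by omega)
  have hmono : Mono (d n 0) := by
    obtain ⟨h, hex⟩ := (h2 n 0).2.1
    exact hex.mono_g (hz1.eq_of_src _ _)
  have hepi : Epi (d n 0) := by
    obtain ⟨h, hex⟩ := (h2 n 0).2.2
    exact hex.epi_f (hz0.eq_of_tgt _ _)
  have hiso : IsIso (d n 0) := isIso_of_mono_of_epi _
  have hsurj : Function.Surjective (δ n 0) := fun z => by
    have := hD.chow_aff (k := k) hn
    exact ((h1 n 0).2.2 z).1 (Subsingleton.elim _ _)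
  constructor
  · intro h y
    obtain ⟨x, hx⟩ := h (y ≫ inv (d n 0))
    refine ⟨δ n 0 x, ?_⟩
    have h6 := h5 x
    have h7 : D.c n 1 U x = y ≫ inv (d n 0) := hx
    rw [h6]
    exact (congrArg (· ≫ d n 0) h7).trans (by
      change (y ≫ inv (d n 0)) ≫ d n 0 = y
      rw [Category.assoc, IsIso.inv_hom_id, Category.comp_id])
  · intro h y
    obtain ⟨z, hz⟩ := h ((show I ⟶ D.H n (0 + 1) U from y) ≫ d n 0)
    obtain ⟨x, rfl⟩ := hsurj z
    refine ⟨x, ?_⟩
    exact (cancel_mono (d n 0)).1 ((h5 x).symm.trans hz)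

theorem surj_bundle_iff (hD : IsRegTheory D) {E B : SchO k} {r : ℕ} (p : E ⟶ B) (hE : IsVar E)
    (hB : IsVar B) (hp : IsAffineBundle r p.left) (n s : ℤ) :
    Function.Surjective (D.c (n + r) s E) ↔ Function.Surjective (D.c n s B) := by
  obtain ⟨ε, e, h⟩ := hD.homotopy r p hE hB hp
  constructor
  · intro hs y
    obtain ⟨x, hx⟩ := hs (y ≫ (e n s).hom)
    obtain ⟨x, rfl⟩ := (ε n s).surjective x
    refine ⟨x, ?_⟩
    rw [h] at hx
    exact (cancel_mono (e n s).hom).1 hx
  · intro hs y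
    obtain ⟨x, hx⟩ := hs (y ≫ (e n s).inv)
    refine ⟨ε n s x, ?_⟩
    rw [h, hx, Category.assoc, Iso.inv_hom_id, Category.comp_id]

/-- Affine schemes are affine bundles over themselves. -/
lemma hasAffineTorsor_of_affine {X : SchO k} (hX : IsVar X) (ha : IsAffine X.left) :
    HasAffineTorsor X := by
  refine ⟨X, 0, 𝟙 X, hX, ha, ?_⟩
  intro b
  let A : CommRingCat.{u} := Γ(X.left, ⊤)
  let e : MvPolynomial (Fin 0) A ≃+* A := (MvPolynomial.isEmptyAlgEquiv A (Fin 0)).toRingEquiv
  let j : Spec A ⟶ X.left := X.left.isoSpec.inv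
  let f : Spec (CommRingCat.of (MvPolynomial (Fin 0) A)) ⟶ Spec A :=
    Spec.map (CommRingCat.ofHom (C : A →+* MvPolynomial (Fin 0) A))
  have hf : IsIso f := by
    have h1 : (CommRingCat.ofHom (C : A →+* MvPolynomial (Fin 0) A)) =
        e.symm.toCommRingCatIso.hom := by
      ext a
      rfl
    have h2 : IsIso (CommRingCat.ofHom (C : A →+* MvPolynomial (Fin 0) A)) := by
      rw [h1]
      infer_instance
    infer_instance
  refine ⟨A, j, f ≫ j, inferInstance, ⟨X.left.isoSpec.hom b, ?_⟩, ?_⟩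
  · change (X.left.isoSpec.hom ≫ X.left.isoSpec.inv) b = b
    rw [Iso.hom_inv_id]
    rfl
  · have h3 : (𝟙 X : X ⟶ X).left = 𝟙 X.left := rfl
    rw [h3]
    exact IsPullback.of_vert_isIso ⟨by simp [f]⟩

/-- **Cycle class maps for all quasi-projective schemes and regulators for smooth affine cubic
hypersurfaces.** -/
theorem reg_main (hD : IsRegTheory D) :
    List.TFAE
      [∀ (M r : ℕ) (q : Fin (r + 1) → MvPolynomial (Fin M) k), (∀ j, (q j).totalDegree ≤ 2) →
          ∀ n : ℤ, n < M → Function.Surjective (D.c (n + r) 1 (hypO q 1)),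
        ∀ X : SchO k, IsVar X → IsAffine X.left → ∀ n : ℤ, Function.Surjective (D.c n 0 X),
        ∀ X : SchO k, IsVar X → HasAffineTorsor X → ∀ n : ℤ, Function.Surjective (D.c n 0 X)] := by
  have hdec : ∀ {M r : ℕ} (q : Fin (r + 1) → MvPolynomial (Fin M) k), ∃ (V : SchO k)
      (i : V ⟶ affO k M), IsVar V ∧ IsAffine V.left ∧ IsDecomp i (cplInc q) := by
    intro M r q
    obtain ⟨W, g, hg, hgr⟩ := exists_closed (Z := Aff k M)
      ⟨((compl q : (Aff k M).Opens) : Set (Aff k M))ᶜ, (compl q).isOpen.isClosed_compl⟩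
    let V : SchO k := Over.mk (g ≫ affStr k M)
    let i : V ⟶ affO k M := Over.homMk g rfl
    have hi : IsClosedImmersion i.left := hg
    have ha : IsAffine V.left := by
      have h1 : IsAffineHom g := inferInstance
      have h2 : IsAffine (Aff k M) := inferInstance
      exact isAffine_of_isAffineHom g
    refine ⟨V, i, .of_affine (isFT_affO.of_closed i hi) ha, ha, hi, inferInstance, ?_⟩
    change Set.range (compl q).ι = (Set.range g)ᶜ
    rw [hgr, Scheme.Opens.range_ι]
    exact (compl_compl _).symm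
  tfae_have 1 → 2 := by
    intro h X hX ha n
    obtain ⟨M, r, q, i, hM, hq, hd⟩ := exists_decomp X hX.ft ha (n + 1).toNat
    have hn : n < M := by omega
    rw [← surj_compl_iff hD i (cplInc q) hd hn, ← surj_bundle_iff hD (hypO_to q) (isVar_hypO q 1)
      (isVar_cplO q) (hypO_to_bundle q)]
    exact h M r q hq n hn
  tfae_have 2 → 1 := by
    intro h M r q _ n hn
    obtain ⟨V, i, hV, ha, hd⟩ := hdec q
    rw [surj_bundle_iff hD (hypO_to q) (isVar_hypO q 1) (isVar_cplO q) (hypO_to_bundle q),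
      surj_compl_iff hD i (cplInc q) hd hn]
    exact h V hV ha n
  tfae_have 2 → 3 := by
    rintro h X hX ⟨T, r, p, hT, ha, hp⟩ n
    rw [← surj_bundle_iff hD p hT hX hp]
    exact h T hT ha _
  tfae_have 3 → 2 := fun h X hX ha n => h X hX (hasAffineTorsor_of_affine hX ha) n
  tfae_finish

end Q54.CU
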