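import Pool.Agent.Q54.CU.TBDefs
import Pool.Agent.Z125.UN.Sym

/-!
# The property `TB` is closed under closed-open decompositions
-/

set_option autoImplicit false

namespace Q54.CU

open CategoryTheory AlgebraicGeometry Pool.Agent.Y116.UV Pool.Agent.Z125.UN

variable {K : Type} [Field K]

lemma inGen_of_fix {V : Type*} [AddCommGroup V] [Module K V] {F : Module.End K V} {x : V}
    (h : F x = x) : InGen F x :=
  ⟨1, by rw [pow_one]; simp [h]⟩

lemma RegMod.IsTB.gen {M : RegMod K} (h : M.IsTB) {x : M.H} (hx : InGen M.F x) :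
    ∃ a, M.reg a = x :=
  h.surj x (h.semisimple x hx)

lemma isTB_of_gen {M : RegMod K} (h1 : Function.Injective M.reg)
    (h2 : ∀ x, InGen M.F x → ∃ a, M.reg a = x) : M.IsTB where
  inj := h1
  surj x hx := h2 x (inGen_of_fix hx)
  semisimple x hx := by
    obtain ⟨a, rfl⟩ := h2 x hx
    exact M.fix a

/-- The five lemma. -/
theorem five {M1 M2 M3 M4 M5 : RegMod K} (f1 : RegHom M1 M2) (f2 : RegHom M2 M3)
    (f3 : RegHom M3 M4) (f4 : RegHom M4 M5) (e2 : RegExact f1 f2) (e3 : RegExact f2 f3)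
    (e4 : RegExact f3 f4) (h1 : M1.IsTB) (h2 : M2.IsTB) (h4 : M4.IsTB) (h5 : M5.IsTB) :
    M3.IsTB := by
  refine isTB_of_gen ?_ ?_
  · rw [injective_iff_map_eq_zero]
    intro a3 ha
    have h6 : f3.a a3 = 0 := by
      apply h4.inj
      rw [map_zero, ← f3.reg, ha, map_zero]
    obtain ⟨a2, rfl⟩ := (e3.1 a3).1 h6
    have h7 : f2.h (M2.reg a2) = 0 := by rw [f2.reg, ha]
    obtain ⟨y1, hy1⟩ := (e2.2 _).1 h7
    obtain ⟨z1, hz1, hz2⟩ := lift_gen (F' := M2.F) f1.frob (x := y1) (by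
      rw [hy1]
      exact inGen_of_fix (M2.fix a2))
    obtain ⟨a1, rfl⟩ := h1.gen hz1
    have h8 : f1.a a1 = a2 := by
      apply h2.inj
      rw [← f1.reg, hz2, hy1]
    rw [← h8]
    exact (e2.1 _).2 ⟨a1, rfl⟩
  · intro x3 hx3
    obtain ⟨a4, ha4⟩ := h4.gen (hx3.map f3.frob)
    have h6 : f4.a a4 = 0 := by
      apply h5.inj
      rw [map_zero, ← f4.reg, ha4]
      exact (e4.2 _).2 ⟨x3, rfl⟩
    obtain ⟨a3, rfl⟩ := (e4.1 a4).1 h6
    have h7 : f3.h (x3 - M3.reg a3) = 0 := by rw [map_sub, f3.reg, ha4, sub_self]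
    obtain ⟨y2, hy2⟩ := (e3.2 _).1 h7
    obtain ⟨z2, hz2, hz3⟩ := lift_gen (F' := M3.F) f2.frob (x := y2) (by
      rw [hy2]
      exact hx3.sub (inGen_of_fix (M3.fix a3)))
    obtain ⟨a2, rfl⟩ := h2.gen hz2
    refine ⟨a3 + f2.a a2, ?_⟩
    rw [map_add, ← f2.reg, hz3, hy2]
    abel

lemma isTB_of_iso {M N : RegMod K} (h : RegIso M N) (hM : M.IsTB) : N.IsTB := by
  obtain ⟨f, h1, h2⟩ := h
  refine isTB_of_gen ?_ ?_
  · rw [injective_iff_map_eq_zero]
    intro b hb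
    obtain ⟨a, rfl⟩ := h1.surjective b
    rw [← f.reg] at hb
    have h3 : M.reg a = 0 := h2.injective (by rw [hb, map_zero])
    rw [hM.inj (by rw [h3, map_zero] : M.reg a = M.reg 0), map_zero]
  · intro x hx
    obtain ⟨y, rfl⟩ := h2.surjective x
    obtain ⟨n, hn⟩ := hx
    have h3 : InGen M.F y := ⟨n, h2.injective (by rw [pow_comm_apply f.frob, hn, map_zero])⟩
    obtain ⟨a, rfl⟩ := hM.gen h3
    exact ⟨f.a a, (f.reg a).symm⟩

lemma isTB_of_iso' {M N : RegMod K} (h : RegIso M N) (hN : N.IsTB) : M.IsTB := by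
  obtain ⟨f, h1, h2⟩ := h
  refine isTB_of_gen ?_ ?_
  · intro a b hab
    apply h1.injective
    apply hN.inj
    rw [← f.reg, ← f.reg, hab]
  · intro x hx
    obtain ⟨b, hb⟩ := hN.gen (hx.map f.frob)
    obtain ⟨a, rfl⟩ := h1.surjective b
    exact ⟨a, h2.injective (by rw [f.reg, hb])⟩

lemma isTB_of_summand {M N : RegMod K} (h : RegSummand M N) (hN : N.IsTB) : M.IsTB := by
  obtain ⟨s, r, h1, h2⟩ := h
  refine isTB_of_gen ?_ ?_
  · intro a b hab
    have h3 : s.a a = s.a b := by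
      apply hN.inj
      rw [← s.reg, ← s.reg, hab]
    rw [← h1 a, h3, h1]
  · intro x hx
    obtain ⟨b, hb⟩ := hN.gen (hx.map s.frob)
    exact ⟨r.a b, by rw [← r.reg, hb, h2]⟩

variable {k : Type} [Field k] {D : ℤ → ℤ → Sch k → RegMod K}

/-- The property `TB` has the closure properties `Bnd`. -/
theorem bnd_tb (hD : IsRegulators D) (hb : TB D (aff k k)) : Bnd True (TB D) where
  iso hX e h i j := isTB_of_iso (hD.iso hX e i j) (h i j)
  total f g hX ht hZ hU i j := by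
    obtain ⟨a, b, d, h⟩ := hD.localization f g hX ht j
    obtain ⟨i, rfl⟩ : ∃ l : ℤ, i = l + 1 := ⟨i - 1, by ring⟩
    exact five (d (i + 1)) (a (i + 1)) (b (i + 1)) (d i) (h _).2.2 (h _).1 (h _).2.1 (hU _ _)
      (hZ _ _) (hU _ _) (hZ _ _)
  opened f g hX ht hZ hX' i j := by
    obtain ⟨a, b, d, h⟩ := hD.localization f g hX ht j
    obtain ⟨i, rfl⟩ : ∃ l : ℤ, i = l + 1 := ⟨i - 1, by ring⟩
    exact five (a (i + 1)) (b (i + 1)) (d i) (a i) (h _).1 (h _).2.1 (h _).2.2 (hZ _ _)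
      (hX' _ _) (hZ _ _) (hX' _ _)
  closed f g hX ht hX' hU i j := by
    obtain ⟨a, b, d, h⟩ := hD.localization f g hX ht j
    exact five (b (i + 1)) (d i) (a i) (b i) (h _).2.1 (h _).2.2 (h _).1 (hX' _ _)
      (hU _ _) (hX' _ _) (hU _ _)
  space n i j := by
    have h1 := hD.bundle k (n + 1) (f1 k n) (aff k k) ⟨𝟙 _, inferInstance, range_id n⟩
      (i - 2 * (n + 1 - 1 : ℕ)) (j - (n + 1 - 1 : ℕ))
    rw [sub_add_cancel, sub_add_cancel] at h1
    exact isTB_of_iso (hD.iso (ft_aff True) ⟨(affIso (jouOne k n)).symm⟩ i j)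
      (isTB_of_iso h1 (hb _ _))
  jouanolou A _ _ _ m f U l hl hr h i j :=
    isTB_of_iso' (hD.bundle A m f U ⟨l, hl, hr⟩ i j) (h _ _)
  torus A _ _ _ h i j := isTB_of_summand (hD.torus A i j) (h _ _)
  bundle A _ _ _ m f U l hl hr h i j := by
    have h1 := hD.bundle A m f U ⟨l, hl, hr⟩ (i - 2 * (m - 1 : ℕ)) (j - (m - 1 : ℕ))
    rw [sub_add_cancel, sub_add_cancel] at h1
    exact isTB_of_iso h1 (h _ _)

end Q54.CU
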