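import Pool.Agent.Q54.CU.Fit
import Pool.Agent.Q54.CU.KU

/-!
# Regulators over finite fields: definitions
-/

set_option autoImplicit false

namespace Q54.CU

open CategoryTheory AlgebraicGeometry Pool.Agent.Y116.UV

/-- A vector space `A` over `K`, a finite-dimensional vector space `H` over `K` with an endomorphism
`F`, and a linear map from `A` to the invariants of `F`. In the application `K = ℚ_ℓ`, `H` is a group
`H_i(X_{k̄}, ℚ_ℓ(j))` with its Frobenius `F`, and `A` is the motivic homology
`H_i^𝓜(X, ℚ(j)) ⊗ ℚ_ℓ = CH_j(X, i - 2 j) ⊗ ℚ_ℓ` with the regulator `reg`. -/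
structure RegMod (K : Type) [Field K] where
  A : Type
  H : Type
  [groupA : AddCommGroup A]
  [modA : Module K A]
  [groupH : AddCommGroup H]
  [modH : Module K H]
  [fin : FiniteDimensional K H]
  F : Module.End K H
  reg : A →ₗ[K] H
  fix : ∀ a, F (reg a) = reg a

attribute [instance] RegMod.groupA RegMod.modA RegMod.groupH RegMod.modH RegMod.fin

variable {K : Type} [Field K]

/-- The regulator is an isomorphism to the invariants of `F`, and the eigenvalue `1` of `F` is
semisimple. -/
structure RegMod.IsTB (M : RegMod K) : Prop where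
  inj : Function.Injective M.reg
  surj : ∀ x, M.F x = x → ∃ a, M.reg a = x
  semisimple : ∀ x, InGen M.F x → M.F x = x

/-- Maps which commute with the regulators and with `F`. -/
structure RegHom (M N : RegMod K) where
  a : M.A →ₗ[K] N.A
  h : M.H →ₗ[K] N.H
  reg : ∀ x, h (M.reg x) = N.reg (a x)
  frob : ∀ x, h (M.F x) = N.F (h x)

/-- Exactness for both vector spaces. -/
def RegExact {M N P : RegMod K} (f : RegHom M N) (g : RegHom N P) : Prop :=
  Function.Exact f.a g.a ∧ Function.Exact f.h g.h

/-- Isomorphic objects. -/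
def RegIso (M N : RegMod K) : Prop :=
  ∃ f : RegHom M N, Function.Bijective f.a ∧ Function.Bijective f.h

/-- `M` is a direct summand of `N`. -/
def RegSummand (M N : RegMod K) : Prop :=
  ∃ (s : RegHom M N) (r : RegHom N M), (∀ x, r.a (s.a x) = x) ∧ ∀ x, r.h (s.h x) = x

/-- A long exact sequence `… → U_{i+1} → Z_i → X_i → U_i → Z_{i-1} → …`. -/
def RegLong (Z X U : ℤ → RegMod K) : Prop :=
  ∃ (a : ∀ i, RegHom (Z i) (X i)) (b : ∀ i, RegHom (X i) (U i))
    (d : ∀ i, RegHom (U (i + 1)) (Z i)),
    ∀ i, RegExact (a i) (b i) ∧ RegExact (b (i + 1)) (d i) ∧ RegExact (d i) (a i)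

/-- The standard properties of the regulators `D i j X` (index `i` of the homology, twist `j`) of the
separated schemes of finite type over the field `k`:

* `iso`: invariance under isomorphisms;
* `localization`: the long exact localization sequences, compatible with the regulators and with
  Frobenius;
* `bundle`: homotopy invariance for the affine bundles `Spec A[w_1, …, w_m] / (∑ f_l w_l - 1) → U`
  of Jouanolou, with fibres of dimension `m - 1`, where `U` is the complement of `f = 0` in `Spec A`;
* `torus`: `H_i(X, j)` is a direct summand of `H_{i+2}(X × 𝔾_m, j + 1)`. -/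
structure IsRegulators {k : Type} [Field k] (D : ℤ → ℤ → Sch k → RegMod K) : Prop where
  iso : ∀ {X Y : Sch k}, FT True X → Nonempty (X ≅ Y) → ∀ i j, RegIso (D i j X) (D i j Y)
  localization : ∀ {Z X U : Sch k} (f : Z ⟶ X) (g : U ⟶ X), FT True X → IsTriple f g →
    ∀ j, RegLong (fun i => D i j Z) (fun i => D i j X) fun i => D i j U
  bundle : ∀ (A : Type) [CommRing A] [Algebra k A] [Algebra.FiniteType k A] (m : ℕ)
    (f : Fin m → A) (U : Sch k), IsNonzeroLocus f U →
    ∀ i j, RegIso (D i j U) (D (i + 2 * (m - 1 : ℕ)) (j + (m - 1 : ℕ)) (jouS k f))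
  torus : ∀ (A : Type) [CommRing A] [Algebra k A] [Algebra.FiniteType k A],
    ∀ i j, RegSummand (D i j (aff k A)) (D (i + 2) (j + 1) (torS k A))

/-- `TB(X)`: for all `i` and `j` the regulator is an isomorphism to the Galois invariants and the
eigenvalue `1` of Frobenius is semisimple. -/
def TB {k : Type} [Field k] (D : ℤ → ℤ → Sch k → RegMod K) (X : Sch k) : Prop :=
  ∀ i j, (D i j X).IsTB

end Q54.CU
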