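import Pool.Agent.Q54.CU.Reg
import Pool.Agent.Y116.UV.Graph

/-!
# The hypersurfaces of tripartite hypergraphs are regular
-/

set_option autoImplicit false

namespace Q54.CU

open MvPolynomial CategoryTheory AlgebraicGeometry Pool.Agent.Y116.UV

variable {R : Type} [CommRing R] {a b c : ℕ}

/-- The coefficients of the variables of the first block. -/
noncomputable def coefQ (R : Type) [CommRing R] (H : Finset (Fin (a + 1) × Fin b × Fin c))
    (i : Fin (a + 1)) : MvPolynomial (Fin (b + c)) R :=
  ∑ h ∈ H with h.1 = i, X (Fin.castAdd c h.2.1) * X (Fin.natAdd b h.2.2)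

/-- The order of the variables is changed. -/
def varE (a b c : ℕ) : Fin (a + 1) ⊕ (Fin b ⊕ Fin c) ≃ Fin (b + c) ⊕ Fin (a + 1) :=
  (Equiv.sumComm _ _).trans (finSumFinEquiv.sumCongr (Equiv.refl _))

lemma rename_trip (H : Finset (Fin (a + 1) × Fin b × Fin c)) :
    renameEquiv R (varE a b c) (∑ h ∈ H, X (Sum.inl h.1) * X (Sum.inr (Sum.inl h.2.1)) *
      X (Sum.inr (Sum.inr h.2.2)) - (1 : MvPolynomial (Fin (a + 1) ⊕ (Fin b ⊕ Fin c)) R)) =
      hypPoly (coefQ R H) 1 := by
  have h1 : ∀ i : Fin (a + 1), varE a b c (Sum.inl i) = Sum.inr i := fun _ => rfl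
  have h2 : ∀ j : Fin b, varE a b c (Sum.inr (Sum.inl j)) = Sum.inl (Fin.castAdd c j) :=
    fun _ => rfl
  have h3 : ∀ k : Fin c, varE a b c (Sum.inr (Sum.inr k)) = Sum.inl (Fin.natAdd b k) :=
    fun _ => rfl
  simp only [hypPoly, coefQ, map_sub, map_one, map_sum, map_mul, renameEquiv_apply, rename_X, h1,
    h2, h3]
  congr 1
  rw [← Finset.sum_fiberwise H (fun h => h.1)]
  apply Finset.sum_congr rfl
  intro i _
  rw [Finset.mul_sum]
  apply Finset.sum_congr rfl
  intro h hh
  rw [(Finset.mem_filter.1 hh).2, mul_assoc]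

/-- The hypersurface of a tripartite hypergraph is a hypersurface `∑ λ_j q_j(x) = 1`. -/
noncomputable def tripEquiv (H : Finset (Fin (a + 1) × Fin b × Fin c)) :
    Trip R H ≃ₐ[R] HypRing (coefQ R H) 1 :=
  Ideal.quotientEquivAlg _ _ (renameEquiv R (varE a b c)) (by
    rw [Ideal.map_span, Set.image_singleton]
    congr 2
    exact (rename_trip H).symm)

/-- **The hypersurfaces of tripartite hypergraphs are regular.** -/
theorem regular_trip [IsRegularRing R] : ∀ {a : ℕ} (H : Finset (Fin a × Fin b × Fin c)),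
    IsRegularSch (tripS R H).left
  | 0, H => by
    intro x
    have h1 : (∑ h ∈ H, X (Sum.inl h.1) * X (Sum.inr (Sum.inl h.2.1)) *
        X (Sum.inr (Sum.inr h.2.2)) - (1 : MvPolynomial (Fin 0 ⊕ (Fin b ⊕ Fin c)) R)) = -1 := by
      rw [Finset.sum_eq_zero, zero_sub]
      intro h _
      exact h.1.elim0
    have h2 : Subsingleton (Trip R H) := by
      unfold Trip
      rw [h1, Ideal.Quotient.subsingleton_iff, Ideal.span_singleton_neg,
        Ideal.span_singleton_one]
    have h3 : IsEmpty (PrimeSpectrum (Trip R H)) := inferInstance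
    exact (h3.false x).elim
  | a + 1, H => by
    intro x
    let e : CommRingCat.of (Trip R H) ≅ CommRingCat.of (HypRing (coefQ R H) 1) :=
      (tripEquiv (R := R) H).toRingEquiv.toCommRingCatIso
    let f : Spec (CommRingCat.of (HypRing (coefQ R H) 1)) ⟶ Spec (CommRingCat.of (Trip R H)) :=
      Spec.map e.hom
    let y : Spec (CommRingCat.of (HypRing (coefQ R H) 1)) := Spec.map e.inv x
    have h1 : f y = x := by
      change (Spec.map e.inv ≫ Spec.map e.hom) x = x
      rw [← Spec.map_comp, Iso.hom_inv_id, Spec.map_id]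
      rfl
    have h2 := regular_of_open f (regular_hyp (coefQ R H)) y
    rw [h1] at h2
    exact h2

end Q54.CU
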