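import Pool.Agent.Q54.CU.Emb
import Pool.Agent.Q54.CU.Dev

/-!
# Universality of smooth affine cubic hypersurfaces and of complements of quadrics
-/

set_option autoImplicit false

universe u

namespace Q54.CU

open MvPolynomial CategoryTheory AlgebraicGeometry TopologicalSpace

section objects

variable (R : Type u) [CommRing R] (M : ℕ)

/-- The affine space of dimension `M`, as a scheme over `R`. -/
noncomputable def affO : Over (Spec (CommRingCat.of R)) := Over.mk (affStr R M)

variable {R M}

/-- The principal open subscheme `f ≠ 0` of the affine space. -/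
noncomputable def basO (f : MvPolynomial (Fin M) R) : Over (Spec (CommRingCat.of R)) :=
  Over.mk (Spec.map (CommRingCat.ofHom (algebraMap (MvPolynomial (Fin M) R)
    (Localization.Away f))) ≫ affStr R M)

/-- The inclusion of the principal open subscheme. -/
noncomputable def basInc (f : MvPolynomial (Fin M) R) : basO f ⟶ affO R M :=
  Over.homMk (Spec.map (CommRingCat.ofHom (algebraMap (MvPolynomial (Fin M) R)
    (Localization.Away f)))) rfl

/-- The hypersurface `∑ λ_j q_j(x) = t` in the affine space of dimension `M + r + 1`, as a scheme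
over `R`. -/
noncomputable def hypO {r : ℕ} (q : Fin (r + 1) → MvPolynomial (Fin M) R) (t : R) :
    Over (Spec (CommRingCat.of R)) := Over.mk (hypProj q t ≫ affStr R M)

/-- The complement of the common zero locus, as a scheme over `R`. -/
noncomputable def cplO {r : ℕ} (q : Fin (r + 1) → MvPolynomial (Fin M) R) :
    Over (Spec (CommRingCat.of R)) := Over.mk ((compl q).ι ≫ affStr R M)

/-- The inclusion of the complement. -/
noncomputable def cplInc {r : ℕ} (q : Fin (r + 1) → MvPolynomial (Fin M) R) :
    cplO q ⟶ affO R M := Over.homMk (compl q).ι rfl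

/-- The projection of the hypersurface `∑ λ_j q_j(x) = 1` to the complement. -/
noncomputable def hypMor {r : ℕ} (q : Fin (r + 1) → MvPolynomial (Fin M) R) :
    HypSch q (1 : R) ⟶ (compl q : Scheme.{u}) :=
  IsOpenImmersion.lift (compl q).ι (hypProj q 1) (range_hypProj_one q)

lemma hypMor_fac {r : ℕ} (q : Fin (r + 1) → MvPolynomial (Fin M) R) :
    hypMor q ≫ (compl q).ι = hypProj q 1 :=
  IsOpenImmersion.lift_fac _ _ _

/-- The projection of the hypersurface `∑ λ_j q_j(x) = 1` to the complement. -/
noncomputable def hypO_to {r : ℕ} (q : Fin (r + 1) → MvPolynomial (Fin M) R) :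
    hypO q 1 ⟶ cplO q :=
  Over.homMk (hypMor q) (by
    change hypMor q ≫ (compl q).ι ≫ affStr R M = hypProj q 1 ≫ affStr R M
    rw [← Category.assoc, hypMor_fac])

lemma hypMor_bundle {r : ℕ} (q : Fin (r + 1) → MvPolynomial (Fin M) R) :
    IsAffineBundle r (hypMor q) :=
  isAffineBundle_of q 1 (i := 𝟙 _) (IsOpenImmersion.isPullback_lift_id (hypProj q 1) (compl q).ι
    (range_hypProj_one q)).flip

lemma hypO_to_bundle {r : ℕ} (q : Fin (r + 1) → MvPolynomial (Fin M) R) :
    IsAffineBundle r (hypO_to q).left := hypMor_bundle q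

instance (f : MvPolynomial (Fin M) R) : IsOpenImmersion (basInc f).left :=
  Scheme.isOpenImmersion_SpecMap_localizationAway
    (R := CommRingCat.of (MvPolynomial (Fin M) R)) f

instance {r : ℕ} (q : Fin (r + 1) → MvPolynomial (Fin M) R) : IsOpenImmersion (cplInc q).left :=
  (inferInstance : IsOpenImmersion (compl q).ι)

lemma mem_range_basInc (f : MvPolynomial (Fin M) R) (x : Aff R M) :
    x ∈ Set.range (basInc f).left ↔ f ∉ x.asIdeal := by
  have h := PrimeSpectrum.localization_away_comap_range (Localization.Away f) f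
  have h1 : x ∈ Set.range (basInc f).left ↔
      x ∈ Set.range (PrimeSpectrum.comap (algebraMap (MvPolynomial (Fin M) R)
        (Localization.Away f))) :=
    Iff.rfl
  rw [h1, h]
  rfl

lemma isFT_affO : IsFT (affO R M) := by
  refine ⟨?_, (inferInstance : QuasiCompact (affStr R M))⟩
  change LocallyOfFiniteType (Spec.map (CommRingCat.ofHom C))
  rw [HasRingHomProperty.Spec_iff (P := @LocallyOfFiniteType)]
  exact (RingHom.finiteType_algebraMap (A := R) (B := MvPolynomial (Fin M) R)).2 inferInstance

lemma isFT_hypO {r : ℕ} (q : Fin (r + 1) → MvPolynomial (Fin M) R) (t : R) :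
    IsFT (hypO q t) := by
  have h1 : (hypO q t).hom = Spec.map (CommRingCat.ofHom (algebraMap R (HypRing q t))) := by
    change hypProj q t ≫ affStr R M = _
    rw [← Spec.map_comp, ← CommRingCat.ofHom_comp]
    congr 2
    ext c
    change toHyp q t (C c) = Ideal.Quotient.mk _ (C c)
    rw [toHyp_apply, rename_C]
  refine ⟨?_, ?_⟩
  · rw [h1]
    change LocallyOfFiniteType (Spec.map (CommRingCat.ofHom (algebraMap R (HypRing q t))))
    rw [HasRingHomProperty.Spec_iff (P := @LocallyOfFiniteType)]
    exact (RingHom.finiteType_algebraMap (A := R) (B := HypRing q t)).2 inferInstance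
  · rw [h1]
    exact (inferInstance : QuasiCompact (Spec.map (CommRingCat.ofHom
      (algebraMap R (HypRing q t)))))

end objects

variable {R : Type u} [CommRing R] [IsNoetherianRing R]
  {P : Over (Spec (CommRingCat.of R)) → Prop}

/-- The affine space is an affine bundle over the base. -/
lemma affStr_bundle (R : Type u) [CommRing R] (M : ℕ) : IsAffineBundle M (affStr R M) := by
  intro b
  refine ⟨CommRingCat.of R, 𝟙 _, 𝟙 _, inferInstance, ⟨b, rfl⟩, ?_⟩
  exact IsPullback.of_horiz_isIso ⟨by simp⟩

/-- Every affine scheme of finite type over `R` is the complement, in an affine space, of the base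
of an affine bundle whose total space is a hypersurface `∑ λ_j q_j(x) = 1` with `q_j` of degree at
most two. -/
theorem exists_decomp (X : Over (Spec (CommRingCat.of R))) (hX : IsFT X) (ha : IsAffine X.left)
    (N : ℕ) : ∃ (M r : ℕ) (q : Fin (r + 1) → MvPolynomial (Fin M) R) (i : X ⟶ affO R M), N ≤ M ∧
      (∀ j, (q j).totalDegree ≤ 2) ∧ IsDecomp i (cplInc q) := by
  have := hX.loc
  obtain ⟨M, r, q, i, hM, hq, hi, hi2, hi3⟩ := exists_embedding X.hom N
  refine ⟨M, r, q, Over.homMk i hi2, hM, hq, hi, inferInstance, ?_⟩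
  change Set.range (compl q).ι = (Set.range i)ᶜ
  rw [Scheme.Opens.range_ι, hi3]
  ext x
  exact (mem_compl q).trans not_forall.symm

lemma isFT_cplO {M r : ℕ} (q : Fin (r + 1) → MvPolynomial (Fin M) R) : IsFT (cplO q) :=
  isFT_affO.of_open (cplInc q) inferInstance

/-- **Universality of smooth affine cubic hypersurfaces.** -/
theorem universality
    (two1 : ∀ {Z X U : Over (Spec (CommRingCat.of R))} (i : Z ⟶ X) (j : U ⟶ X), IsFT X →
      IsDecomp i j → P Z → P U → P X)
    (two2 : ∀ {Z X U : Over (Spec (CommRingCat.of R))} (i : Z ⟶ X) (j : U ⟶ X), IsFT X →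
      IsDecomp i j → P X → P U → P Z)
    (bun : ∀ {E B : Over (Spec (CommRingCat.of R))} (r : ℕ) (p : E ⟶ B), IsFT E → IsFT B →
      IsAffineBundle r p.left → P E → P B)
    (aff : ∀ M, P (affO R M))
    (cub : ∀ (M r : ℕ) (q : Fin (r + 1) → MvPolynomial (Fin M) R), (∀ j, (q j).totalDegree ≤ 2) →
      P (hypO q 1))
    (X : Over (Spec (CommRingCat.of R))) (hX : IsFT X) : P X := by
  refine devissage P (fun i j hX hd hZ hU => two1 i j hX hd hZ hU) ?_ X hX
  intro X hX ha
  obtain ⟨M, r, q, i, -, hq, hd⟩ := exists_decomp X hX ha 0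
  exact two2 i (cplInc q) isFT_affO hd (aff M) (bun r (hypO_to q) (isFT_hypO q 1) (isFT_cplO q)
    (hypO_to_bundle q) (cub M r q hq))

end Q54.CU
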